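import Mathlib

set_option autoImplicit false

namespace Pool.Agent.Lib.MP_26fc11_gt

open MeasureTheory

lemma measurePreserving_of_preimage_eq {V : Type*} [NormedAddCommGroup V] [NormedSpace ℝ V]
    [MeasurableSpace V] [BorelSpace V] [FiniteDimensional ℝ V] (μ : Measure V)
    [μ.IsAddHaarMeasure] (T : V ≃L[ℝ] V) (L : Set V) (h0 : μ L ≠ 0) (h1 : μ L ≠ ⊤)
    (hT : T ⁻¹' L = L) : MeasurePreserving T μ μ := by
  refine ⟨T.continuous.measurable, ?_⟩
  have : (μ.map T).IsAddHaarMeasure := T.isAddHaarMeasure_map μ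
  have h := Measure.isAddLeftInvariant_eq_smul (μ.map T) μ
  have h2 : (μ.map T) L = μ L := by
    have : (μ.map T) L = μ (T ⁻¹' L) :=
      T.toHomeomorph.toMeasurableEquiv.map_apply L
    rw [this, hT]
  rw [h] at h2 ⊢
  have h3 : ((Measure.addHaarScalarFactor (μ.map T) μ : NNReal) : ENNReal) * μ L = 1 * μ L := by
    rw [one_mul]; exact h2
  have h4 : ((Measure.addHaarScalarFactor (μ.map T) μ : NNReal) : ENNReal) = 1 :=
    (ENNReal.mul_left_inj h0 h1).mp h3
  have h5 : Measure.addHaarScalarFactor (μ.map T) μ = 1 := by exact_mod_cast h4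
  rw [h5, one_smul]

/-- Multiplication by a unimodular scalar preserves every Haar measure. -/
lemma measurePreserving_smul_unit {V : Type*} [NormedAddCommGroup V] [NormedSpace ℂ V]
    [MeasurableSpace V] [BorelSpace V] [FiniteDimensional ℝ V] (μ : Measure V)
    [μ.IsAddHaarMeasure] (c : ℂ) (hc : ‖c‖ = 1) :
    MeasurePreserving (fun h : V => c • h) μ μ := by
  have hc0 : c ≠ 0 := by
    intro h; rw [h] at hc; simp at hc
  let T : V ≃L[ℝ] V := ((LinearEquiv.smulOfNeZero ℂ V c hc0).restrictScalars ℝ).toContinuousLinearEquiv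
  have hT : ∀ v, T v = c • v := fun v => rfl
  have : MeasurePreserving T μ μ := by
    refine measurePreserving_of_preimage_eq μ T (Metric.closedBall 0 1) ?_ ?_ ?_
    · exact (Metric.measure_closedBall_pos μ 0 one_pos).ne'
    · exact (isCompact_closedBall (0 : V) 1).measure_lt_top.ne
    · ext v
      simp [hT, norm_smul, hc]
  exact this

lemma volume_abs_lt (a : ENNReal) :
    volume {s : ℝ | ENNReal.ofReal (2 * |s|) < a} = a := by
  by_cases ha : a = ⊤
  · subst ha
    have h : {s : ℝ | ENNReal.ofReal (2 * |s|) < ⊤} = Set.univ := by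
      ext s; simp [-ENNReal.ofReal_mul, ENNReal.ofReal_lt_top]
    rw [h]; simp
  · have h : {s : ℝ | ENNReal.ofReal (2 * |s|) < a} = Set.Ioo (-(a.toReal / 2)) (a.toReal / 2) := by
      ext s
      simp only [Set.mem_ofPred_eq, Set.mem_Ioo]
      rw [ENNReal.ofReal_lt_iff_lt_toReal (by positivity) ha, ← abs_lt]
      constructor <;> intro h <;> linarith
    rw [h, Real.volume_Ioo]
    rw [show a.toReal / 2 - -(a.toReal / 2) = a.toReal by ring]
    exact ENNReal.ofReal_toReal ha

/-- Radial comparison in the plane: if `m` is rotation invariant on `ℂ`, then its integral over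
the disc of radius `τ` is at most `π τ` times its integral along the imaginary axis. -/
lemma radial_le (m : ℂ → ENNReal) (hm : Measurable m)
    (hinv : ∀ c : ℂ, ‖c‖ = 1 → ∀ z, m (c * z) = m z) (τ : ℝ) (hτ : 0 < τ) :
    ∫⁻ z in {z : ℂ | ‖z‖ ≤ τ}, m z ≤
      ENNReal.ofReal (Real.pi * τ) * ∫⁻ t : ℝ, m ((t : ℂ) * Complex.I) := by
  have hI : ∀ r : ℝ, m ((r : ℂ) * Complex.I) = m (|r| : ℝ) := by
    intro r
    rcases le_total 0 r with hr | hr
    · rw [abs_of_nonneg hr, mul_comm]
      exact hinv Complex.I (by simp) _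
    · rw [abs_of_nonpos hr]
      have := hinv (-Complex.I) (by simp) (((-r : ℝ)) : ℂ)
      rw [← this]
      congr 1
      push_cast
      ring
  have hmeas : Measurable fun r : ℝ => m (|r| : ℝ) :=
    hm.comp (Complex.measurable_ofReal.comp measurable_norm)
  -- the integral over the imaginary axis
  have h1 : ∫⁻ t : ℝ, m ((t : ℂ) * Complex.I) = 2 * ∫⁻ r in Set.Ioi (0 : ℝ), m (r : ℝ) := by
    simp_rw [hI]
    have hu : (Set.univ : Set ℝ) = Set.Iic 0 ∪ Set.Ioi 0 := by
      ext x; simp
    rw [← setLIntegral_univ, hu, lintegral_union measurableSet_Ioi (by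
      rw [Set.disjoint_left]; intro x hx hx'
      exact absurd (Set.mem_Iic.mp hx) (not_le.mpr (Set.mem_Ioi.mp hx')))]
    have h2 : ∫⁻ r in Set.Iic (0 : ℝ), m (|r| : ℝ) = ∫⁻ r in Set.Ioi (0 : ℝ), m (|r| : ℝ) := by
      rw [← Measure.restrict_congr_set (Iio_ae_eq_Iic (a := (0 : ℝ)) (μ := volume))]
      have hmp : MeasurePreserving (fun x : ℝ => -x) volume volume :=
        Measure.measurePreserving_neg volume
      have := hmp.setLIntegral_comp_preimage (s := Set.Ioi (0 : ℝ)) measurableSet_Ioi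
        (f := fun r : ℝ => m (|r| : ℝ)) hmeas
      rw [← this]
      simp
    rw [h2, two_mul]
    have h3 : ∫⁻ r in Set.Ioi (0 : ℝ), m (|r| : ℝ) = ∫⁻ r in Set.Ioi (0 : ℝ), m (r : ℝ) := by
      refine setLIntegral_congr_fun measurableSet_Ioi ?_
      intro r hr
      simp only [abs_of_pos (Set.mem_Ioi.mp hr)]
    rw [h3]
  -- polar coordinates
  have h2 : ∫⁻ z in {z : ℂ | ‖z‖ ≤ τ}, m z
      = ∫⁻ p in polarCoord.target, ENNReal.ofReal p.1 *
          ({z : ℂ | ‖z‖ ≤ τ}.indicator m (Complex.polarCoord.symm p)) := by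
    rw [← lintegral_indicator (measurableSet_le measurable_norm measurable_const),
      ← Complex.lintegral_comp_polarCoord_symm]
    rfl
  rw [h2, h1]
  have hbound : ∫⁻ p in polarCoord.target, ENNReal.ofReal p.1 *
          ({z : ℂ | ‖z‖ ≤ τ}.indicator m (Complex.polarCoord.symm p))
      ≤ ∫⁻ p in polarCoord.target, ENNReal.ofReal τ * m (p.1 : ℝ) := by
    refine setLIntegral_mono' polarCoord.open_target.measurableSet ?_
    intro p hp
    have hp1 : 0 < p.1 := hp.1
    by_cases hmem : Complex.polarCoord.symm p ∈ {z : ℂ | ‖z‖ ≤ τ}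
    · rw [Set.indicator_of_mem hmem]
      have hn : ‖Complex.polarCoord.symm p‖ = p.1 := by
        rw [Complex.norm_polarCoord_symm, abs_of_pos hp1]
      have hle : p.1 ≤ τ := by rw [← hn]; exact hmem
      have hm' : m (Complex.polarCoord.symm p) = m (p.1 : ℝ) := by
        rw [Complex.polarCoord_symm_apply, mul_comm]
        apply hinv
        have := Complex.norm_exp_ofReal_mul_I p.2
        rw [Complex.exp_mul_I] at this
        exact_mod_cast this
      rw [hm']
      gcongr
    · rw [Set.indicator_of_notMem hmem]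
      simp
  refine hbound.trans ?_
  have hmf : Measurable fun p : ℝ × ℝ => m ((p.1 : ℝ) : ℂ) :=
    hm.comp (Complex.measurable_ofReal.comp measurable_fst)
  rw [lintegral_const_mul _ hmf]
  have h4 : ∫⁻ p in polarCoord.target, m ((p.1 : ℝ) : ℂ)
      = ENNReal.ofReal (2 * Real.pi) * ∫⁻ r in Set.Ioi (0 : ℝ), m (r : ℝ) := by
    have ht : polarCoord.target = Set.Ioi (0 : ℝ) ×ˢ Set.Ioo (-Real.pi) Real.pi := rfl
    rw [ht, Measure.volume_eq_prod, ← Measure.prod_restrict, lintegral_prod]
    · simp only [lintegral_const, Measure.restrict_apply MeasurableSet.univ, Set.univ_inter,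
        Real.volume_Ioo]
      have hm1 : Measurable fun r : ℝ => m (r : ℂ) := hm.comp Complex.measurable_ofReal
      rw [lintegral_mul_const _ hm1, mul_comm]
      congr 2
      ring
    · exact (hm.comp (Complex.measurable_ofReal.comp measurable_fst)).aemeasurable
  rw [h4, ← mul_assoc, ← mul_assoc, ← ENNReal.ofReal_mul hτ.le]
  apply le_of_eq
  congr 1
  rw [show (2 : ENNReal) = ENNReal.ofReal 2 by simp, ← ENNReal.ofReal_mul (by positivity)]
  congr 1
  ring

/-- Circle lemma on a product `ℂ × W`. -/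
lemma circle_prod {W : Type*} [NormedAddCommGroup W] [NormedSpace ℂ W] [MeasurableSpace W]
    [BorelSpace W] [SecondCountableTopology W] (ν : Measure W) [SFinite ν]
    (hν : ∀ c : ℂ, ‖c‖ = 1 → MeasurePreserving (fun h : W => c • h) ν ν)
    (F : ℂ × W → ENNReal) (hF : Measurable F)
    (hinv : ∀ c : ℂ, ‖c‖ = 1 → ∀ p, F (c • p) = F p) (τ : ℝ) (hτ : 0 < τ) :
    ∫⁻ p in {p : ℂ × W | ‖p.1‖ ≤ τ}, F p ∂(volume.prod ν) ≤
      ENNReal.ofReal (Real.pi * τ) *
        (volume.prod ν) {p : ℂ × W | ENNReal.ofReal (2 * |p.1.re|) <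
          F (((p.1.im : ℂ) * Complex.I), p.2)} := by
  set m : ℂ → ENNReal := fun z => ∫⁻ h, F (z, h) ∂ν with hmdef
  have hm : Measurable m := hF.lintegral_prod_right'
  have hminv : ∀ c : ℂ, ‖c‖ = 1 → ∀ z, m (c * z) = m z := by
    intro c hc z
    have hc' : ‖c‖ = 1 := hc
    simp only [hmdef]
    have hmp := hν c hc
    have h1 : ∫⁻ h, F (c * z, c • h) ∂ν = ∫⁻ h, F (c * z, h) ∂ν :=
      hmp.lintegral_comp (f := fun h => F (c * z, h)) (hF.comp measurable_prodMk_left)
    rw [← h1]
    refine lintegral_congr fun h => ?_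
    exact hinv c hc (z, h)
  have h1 : ∫⁻ p in {p : ℂ × W | ‖p.1‖ ≤ τ}, F p ∂(volume.prod ν)
      = ∫⁻ z in {z : ℂ | ‖z‖ ≤ τ}, m z := by
    have hset : {p : ℂ × W | ‖p.1‖ ≤ τ} = {z : ℂ | ‖z‖ ≤ τ} ×ˢ Set.univ := by
      ext p; simp
    rw [hset, ← Measure.prod_restrict, Measure.restrict_univ, lintegral_prod _ hF.aemeasurable]
  rw [h1]
  refine (radial_le m hm hminv τ hτ).trans ?_
  gcongr
  -- the measure of the symmetrised region
  set S : Set (ℂ × W) := {p : ℂ × W | ENNReal.ofReal (2 * |p.1.re|) <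
          F (((p.1.im : ℂ) * Complex.I), p.2)} with hS
  have hFm : Measurable fun p : ℂ × W => F (((p.1.im : ℂ) * Complex.I), p.2) := by
    apply hF.comp
    apply Measurable.prodMk
    · exact (Complex.measurable_ofReal.comp (Complex.measurable_im.comp measurable_fst)).mul_const _
    · exact measurable_snd
  have hSm : MeasurableSet S := by
    apply measurableSet_lt _ hFm
    exact ENNReal.measurable_ofReal.comp
      ((measurable_norm.comp (Complex.measurable_re.comp measurable_fst)).const_mul 2)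
  have h2 : (volume.prod ν) S = ∫⁻ h, (∫⁻ t : ℝ, F ((t : ℂ) * Complex.I, h)) ∂ν := by
    rw [Measure.prod_apply_symm hSm]
    refine lintegral_congr fun h => ?_
    have hmp := Complex.volume_preserving_equiv_real_prod.symm
    have hSh : MeasurableSet ((fun x : ℂ => (x, h)) ⁻¹' S) := measurable_prodMk_right hSm
    rw [← hmp.measure_preimage hSh.nullMeasurableSet]
    rw [Measure.volume_eq_prod, Measure.prod_apply_symm (hmp.measurable hSh)]
    refine lintegral_congr fun t => ?_
    rw [← volume_abs_lt (F ((t : ℂ) * Complex.I, h))]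
    congr 1
  rw [h2]
  apply le_of_eq
  simp only [hmdef]
  rw [lintegral_lintegral_swap]
  apply Measurable.aemeasurable
  apply hF.comp
  apply Measurable.prodMk
  · exact (Complex.measurable_ofReal.comp measurable_fst).mul_const _
  · exact measurable_snd

/-- Circle lemma on a finite-dimensional complex vector space. -/
lemma circle_general {V : Type*} [NormedAddCommGroup V] [NormedSpace ℂ V] [MeasurableSpace V]
    [BorelSpace V] [FiniteDimensional ℝ V] (μ : Measure V) [μ.IsAddHaarMeasure]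
    (w : V →ₗ[ℂ] ℂ) (u : V) (hu : w u = 1)
    (F : V → ENNReal) (hF : Measurable F)
    (hinv : ∀ c : ℂ, ‖c‖ = 1 → ∀ v, F (c • v) = F v) (τ : ℝ) (hτ : 0 < τ) :
    ∫⁻ v in {v | ‖w v‖ ≤ τ}, F v ∂μ ≤ ENNReal.ofReal (Real.pi * τ) *
      μ {v | ENNReal.ofReal (2 * |(w v).re|) < F (v - ((w v).re : ℂ) • u)} := by
  have hfin : FiniteDimensional ℂ V := Module.Finite.of_restrictScalars_finite ℝ ℂ V
  let W : Submodule ℂ V := LinearMap.ker w
  let Φ₀ : (ℂ × W) ≃ₗ[ℂ] V :=
    { toFun := fun p => p.1 • u + (p.2 : V)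
      map_add' := by
        intro p q
        simp only [Prod.fst_add, Prod.snd_add, Submodule.coe_add, add_smul]
        abel
      map_smul' := by
        intro c p
        simp only [Prod.smul_fst, Prod.smul_snd, Submodule.coe_smul, smul_eq_mul, mul_smul,
          smul_add, RingHom.id_apply]
      invFun := fun v => (w v, ⟨v - w v • u, by
        simp [W, hu]⟩)
      left_inv := by
        intro p
        have hp : w (p.2 : V) = 0 := p.2.2
        ext
        · simp [hu, hp]
        · simp [hu, hp]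
      right_inv := by
        intro v
        simp }
  have hΦ₀ : ∀ p : ℂ × W, Φ₀ p = p.1 • u + (p.2 : V) := fun p => rfl
  let Φ : (ℂ × W) ≃L[ℝ] V := (Φ₀.restrictScalars ℝ).toContinuousLinearEquiv
  have hΦ : ∀ p : ℂ × W, Φ p = p.1 • u + (p.2 : V) := fun p => rfl
  have hwΦ : ∀ p : ℂ × W, w (Φ p) = p.1 := by
    intro p
    have hp : w (p.2 : V) = 0 := p.2.2
    rw [hΦ]; simp [hu, hp]
  let ν : Measure W := Measure.addHaar
  have hprod : ((volume : Measure ℂ).prod ν).IsAddHaarMeasure := inferInstance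
  have hmap : (((volume : Measure ℂ).prod ν).map Φ).IsAddHaarMeasure :=
    Φ.isAddHaarMeasure_map _
  have hμ := Measure.isAddLeftInvariant_eq_smul μ (((volume : Measure ℂ).prod ν).map Φ)
  set c := Measure.addHaarScalarFactor μ (((volume : Measure ℂ).prod ν).map Φ) with hc
  have hν : ∀ c : ℂ, ‖c‖ = 1 → MeasurePreserving (fun h : W => c • h) ν ν := fun c hc =>
    measurePreserving_smul_unit ν c hc
  have hΦm : Measurable Φ := Φ.continuous.measurable
  have hcirc := circle_prod ν hν (fun p => F (Φ p)) (hF.comp hΦm) (by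
    intro c hc p
    have : Φ (c • p) = c • Φ p := by
      rw [hΦ, hΦ]
      simp [mul_smul]
    simp only [this]
    exact hinv c hc _) τ hτ
  have hwm : Measurable fun v : V => w v :=
    (LinearMap.continuous_of_finiteDimensional w).measurable
  rw [hμ]
  rw [Measure.restrict_smul, lintegral_smul_measure, Measure.smul_apply]
  have h1 : ∫⁻ v in {v | ‖w v‖ ≤ τ}, F v ∂(((volume : Measure ℂ).prod ν).map Φ)
      = ∫⁻ p in {p : ℂ × W | ‖p.1‖ ≤ τ}, F (Φ p) ∂((volume : Measure ℂ).prod ν) := by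
    rw [setLIntegral_map (measurableSet_le hwm.norm measurable_const) hF hΦm]
    congr 2
    ext p
    simp [hwΦ]
  have h2 : (((volume : Measure ℂ).prod ν).map Φ)
        {v | ENNReal.ofReal (2 * |(w v).re|) < F (v - ((w v).re : ℂ) • u)}
      = ((volume : Measure ℂ).prod ν) {p : ℂ × W | ENNReal.ofReal (2 * |p.1.re|) <
          F (Φ (((p.1.im : ℂ) * Complex.I), p.2))} := by
    have h3 : (((volume : Measure ℂ).prod ν).map Φ)
        {v | ENNReal.ofReal (2 * |(w v).re|) < F (v - ((w v).re : ℂ) • u)}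
        = ((volume : Measure ℂ).prod ν) (Φ ⁻¹'
        {v | ENNReal.ofReal (2 * |(w v).re|) < F (v - ((w v).re : ℂ) • u)}) :=
      Φ.toHomeomorph.toMeasurableEquiv.map_apply _
    rw [h3]
    congr 1
    ext p
    simp only [Set.mem_preimage, Set.mem_ofPred_eq, hwΦ]
    have h4 : Φ p - ((p.1.re : ℂ)) • u = Φ (((p.1.im : ℂ) * Complex.I), p.2) := by
      rw [hΦ, hΦ]
      have h5 : p.1 = (p.1.re : ℂ) + (p.1.im : ℂ) * Complex.I := (Complex.re_add_im p.1).symm
      have h6 : p.1 • u = (p.1.re : ℂ) • u + ((p.1.im : ℂ) * Complex.I) • u := by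
        rw [← add_smul, ← h5]
      rw [h6]
      simp only
      abel
    rw [h4]
  rw [h1, h2]
  simp only [smul_eq_mul, ENNReal.smul_def]
  calc (c : ENNReal) * ∫⁻ p in {p : ℂ × W | ‖p.1‖ ≤ τ}, F (Φ p) ∂((volume : Measure ℂ).prod ν)
      ≤ (c : ENNReal) * (ENNReal.ofReal (Real.pi * τ) * ((volume : Measure ℂ).prod ν)
        {p : ℂ × W | ENNReal.ofReal (2 * |p.1.re|) <
          F (Φ (((p.1.im : ℂ) * Complex.I), p.2))}) := by gcongr
    _ = _ := by ring

end Pool.Agent.Lib.MP_26fc11_gt
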