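import Pool.Agent.Lib.MP_26fc11_gt.Circle

set_option autoImplicit false

namespace Pool.Agent.Lib.MP_26fc11_gt

open MeasureTheory Matrix
open scoped MatrixOrder ComplexOrder

section general

variable {V : Type*} [NormedAddCommGroup V] [NormedSpace ℝ V]
    [MeasurableSpace V] [BorelSpace V] [FiniteDimensional ℝ V] (μ : Measure V)
    [μ.IsAddHaarMeasure] (T : V ≃L[ℝ] V) (L : Set V)

lemma setIntegral_comp_symm {E : Type*} [NormedAddCommGroup E] [NormedSpace ℝ E]
    (h0 : μ L ≠ 0) (h1 : μ L ≠ ⊤)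
    (hT : T ⁻¹' L = L) (f : V → E) : ∫ x in L, f (T x) ∂μ = ∫ x in L, f x ∂μ := by
  have hmp := measurePreserving_of_preimage_eq μ T L h0 h1 hT
  have := hmp.setIntegral_preimage_emb T.toHomeomorph.measurableEmbedding f L
  rw [hT] at this
  exact this

lemma setLIntegral_scale (S : Set V) (f : V → ENNReal) (hf : Measurable f) (hS : MeasurableSet S) :
    ∃ c : NNReal, μ S = c * μ (T ⁻¹' S) ∧
      ∫⁻ x in S, f x ∂μ = c * ∫⁻ x in T ⁻¹' S, f (T x) ∂μ := by
  have : (μ.map T).IsAddHaarMeasure := T.isAddHaarMeasure_map μ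
  have h := Measure.isAddLeftInvariant_eq_smul μ (μ.map T)
  refine ⟨Measure.addHaarScalarFactor μ (μ.map T), ?_, ?_⟩
  · conv_lhs => rw [h]
    have h3 : (μ.map T) S = μ (T ⁻¹' S) := T.toHomeomorph.toMeasurableEquiv.map_apply S
    rw [Measure.smul_apply, h3]
    rfl
  · conv_lhs => rw [h]
    rw [Measure.restrict_smul, lintegral_smul_measure,
      setLIntegral_map hS hf T.continuous.measurable]
    rfl

end general

variable {ι : Type*} [Fintype ι] [DecidableEq ι]

/-- Squared Euclidean length of a complex vector. -/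
noncomputable def nsq (y : ι → ℂ) : ℝ := ∑ i, ‖y i‖ ^ 2

omit [DecidableEq ι] in
lemma nsq_nonneg (y : ι → ℂ) : 0 ≤ nsq y := Finset.sum_nonneg fun i _ => by positivity

omit [DecidableEq ι] in
lemma continuous_nsq : Continuous (nsq : (ι → ℂ) → ℝ) := by
  unfold nsq; fun_prop

/-- Euclidean unit ball. -/
def Bl (ι : Type*) [Fintype ι] : Set (ι → ℂ) := {y | nsq y ≤ 1}

omit [DecidableEq ι] in
lemma isClosed_Bl : IsClosed (Bl ι) := isClosed_le continuous_nsq continuous_const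

omit [DecidableEq ι] in
lemma isCompact_Bl : IsCompact (Bl ι) := by
  refine (isCompact_closedBall (0 : ι → ℂ) 1).of_isClosed_subset isClosed_Bl ?_
  intro y hy
  rw [mem_closedBall_zero_iff, pi_norm_le_iff_of_nonneg zero_le_one]
  intro i
  have h1 : ‖y i‖ ^ 2 ≤ nsq y :=
    Finset.single_le_sum (f := fun i => ‖y i‖ ^ 2) (fun i _ => by positivity) (Finset.mem_univ i)
  have h2 : nsq y ≤ 1 := hy
  have h3 := norm_nonneg (y i)
  nlinarith

omit [DecidableEq ι] in
lemma Bl_mem_nhds : Bl ι ∈ nhds (0 : ι → ℂ) := by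
  have h : {y : ι → ℂ | nsq y < 1} ∈ nhds (0 : ι → ℂ) := by
    apply (isOpen_lt continuous_nsq continuous_const).mem_nhds
    simp [nsq]
  refine Filter.mem_of_superset h ?_
  intro y hy
  exact le_of_lt (show nsq y < 1 from hy)

omit [DecidableEq ι] in
lemma volume_Bl_ne_zero : volume (Bl ι) ≠ 0 :=
  (Measure.measure_pos_of_mem_nhds volume Bl_mem_nhds).ne'

omit [DecidableEq ι] in
lemma volume_Bl_ne_top : volume (Bl ι) ≠ ⊤ := isCompact_Bl.measure_lt_top.ne

/-- Sign flip of one coordinate. -/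
noncomputable def flip1 (i : ι) : (ι → ℂ) ≃L[ℝ] (ι → ℂ) :=
  (LinearEquiv.ofInvolutive
    ({ toFun := fun y j => if j = i then - y j else y j
       map_add' := by
        intro x y; ext j; by_cases h : j = i <;> simp [h]
        ring
       map_smul' := by
        intro c x; ext j; by_cases h : j = i <;> simp [h] } : (ι → ℂ) →ₗ[ℝ] (ι → ℂ))
    (by intro y; ext j; by_cases h : j = i <;> simp [h])).toContinuousLinearEquiv

lemma flip1_apply (i : ι) (y : ι → ℂ) (j : ι) : flip1 i y j = if j = i then - y j else y j := rfl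

/-- Permutation of coordinates. -/
noncomputable def perm1 (σ : Equiv.Perm ι) : (ι → ℂ) ≃L[ℝ] (ι → ℂ) :=
  (LinearEquiv.funCongrLeft ℝ ℂ σ).toContinuousLinearEquiv

omit [DecidableEq ι] in
lemma perm1_apply (σ : Equiv.Perm ι) (y : ι → ℂ) (j : ι) : perm1 σ y j = y (σ j) := rfl

lemma nsq_flip1 (i : ι) (y : ι → ℂ) : nsq (flip1 i y) = nsq y := by
  unfold nsq
  refine Finset.sum_congr rfl fun j _ => ?_
  rw [flip1_apply]; split_ifs <;> simp

omit [DecidableEq ι] in
lemma nsq_perm1 (σ : Equiv.Perm ι) (y : ι → ℂ) : nsq (perm1 σ y) = nsq y := by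
  unfold nsq
  simp_rw [perm1_apply]
  exact Equiv.sum_comp σ (fun i => ‖y i‖ ^ 2)

lemma Bl_flip1 (i : ι) : flip1 i ⁻¹' (Bl ι) = Bl ι := by
  ext y; simp [Bl, nsq_flip1]

omit [DecidableEq ι] in
lemma Bl_perm1 (σ : Equiv.Perm ι) : perm1 σ ⁻¹' (Bl ι) = Bl ι := by
  ext y; simp [Bl, nsq_perm1]

lemma integral_Bl_cross (i j : ι) (hij : i ≠ j) :
    ∫ y in Bl ι, y i * star (y j) = 0 := by
  have h := setIntegral_comp_symm volume (flip1 i) (Bl ι) volume_Bl_ne_zero volume_Bl_ne_top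
    (Bl_flip1 i) (fun y : ι → ℂ => y i * star (y j))
  have h2 : ∫ y in Bl ι, (flip1 i y) i * star ((flip1 i y) j)
      = - ∫ y in Bl ι, y i * star (y j) := by
    rw [← integral_neg]
    congr 1
    ext y
    rw [flip1_apply, flip1_apply, if_pos rfl, if_neg hij.symm]
    ring
  rw [h2] at h
  have h3 : (2 : ℂ) * ∫ y in Bl ι, y i * star (y j) = 0 := by linear_combination -h
  simpa using h3

lemma integral_Bl_diag (i j : ι) :
    ∫ y in Bl ι, y i * star (y i) = ∫ y in Bl ι, y j * star (y j) := by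
  have h := setIntegral_comp_symm volume (perm1 (Equiv.swap i j)) (Bl ι) volume_Bl_ne_zero
    volume_Bl_ne_top (Bl_perm1 _) (fun y : ι → ℂ => y j * star (y j))
  rw [← h]
  congr 1
  ext y
  simp [perm1_apply]

omit [DecidableEq ι] in
lemma integrableOn_Bl (f : (ι → ℂ) → ℂ) (hf : Continuous f) :
    IntegrableOn f (Bl ι) volume :=
  hf.continuousOn.integrableOn_compact isCompact_Bl

/-- second moment of a linear image of the ball -/
lemma integral_Bl_vecMul (B : Matrix ι ι ℂ) (i₀ : ι) :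
    ∫ y in Bl ι, ((nsq (y ᵥ* B) : ℝ) : ℂ)
      = (∫ y in Bl ι, y i₀ * star (y i₀)) * (∑ j, ∑ i, B i j * star (B i j)) := by
  have h1 : ∀ y : ι → ℂ, ((nsq (y ᵥ* B) : ℝ) : ℂ)
      = ∑ j, ∑ i, ∑ i', (B i j * star (B i' j)) * (y i * star (y i')) := by
    intro y
    unfold nsq
    push_cast
    refine Finset.sum_congr rfl fun j _ => ?_
    have h2 : ((‖(y ᵥ* B) j‖ : ℝ) : ℂ) ^ 2 = (y ᵥ* B) j * star ((y ᵥ* B) j) := by
      rw [← Complex.ofReal_pow, ← Complex.normSq_eq_norm_sq]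
      exact (Complex.mul_conj _).symm
    rw [h2]
    simp only [vecMul, dotProduct, star_sum, star_mul']
    rw [Finset.sum_mul_sum]
    refine Finset.sum_congr rfl fun i _ => Finset.sum_congr rfl fun i' _ => ?_
    ring
  simp_rw [h1]
  have hc : ∀ i i' : ι, Continuous fun y : ι → ℂ => y i * star (y i') := by
    intro i i'; fun_prop
  have hint : ∀ j i i', IntegrableOn
      (fun y : ι → ℂ => (B i j * star (B i' j)) * (y i * star (y i'))) (Bl ι) volume := by
    intro j i i'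
    exact integrableOn_Bl _ (continuous_const.mul (hc i i'))
  rw [integral_finsetSum _ (fun j _ => integrable_finsetSum _ (fun i _ =>
    integrable_finsetSum _ (fun i' _ => hint j i i')))]
  rw [Finset.mul_sum]
  refine Finset.sum_congr rfl fun j _ => ?_
  rw [integral_finsetSum _ (fun i _ => integrable_finsetSum _ (fun i' _ => hint j i i'))]
  rw [Finset.mul_sum]
  refine Finset.sum_congr rfl fun i _ => ?_
  rw [integral_finsetSum _ (fun i' _ => hint j i i')]
  rw [Finset.sum_eq_single i]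
  · rw [integral_const_mul, integral_Bl_diag i i₀, mul_comm]
  · intro i' _ hne
    rw [integral_const_mul, integral_Bl_cross i i' hne.symm, mul_zero]
  · intro h; exact absurd (Finset.mem_univ i) h

omit [DecidableEq ι] in
lemma integral_Bl_coord (i₀ : ι) :
    ∫ y in Bl ι, y i₀ * star (y i₀) = ((∫ y in Bl ι, ‖y i₀‖ ^ 2 : ℝ) : ℂ) := by
  rw [← integral_complex_ofReal]
  congr 1
  ext y
  rw [← Complex.normSq_eq_norm_sq]
  exact Complex.mul_conj _

lemma card_mul_integral_Bl_coord_le (i₀ : ι) :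
    (Fintype.card ι : ℝ) * ∫ y in Bl ι, ‖y i₀‖ ^ 2 ≤ (volume (Bl ι)).toReal := by
  have h1 : ∀ i : ι, ∫ y in Bl ι, ‖y i‖ ^ 2 = ∫ y in Bl ι, ‖y i₀‖ ^ 2 := by
    intro i
    have := integral_Bl_diag i i₀
    rw [integral_Bl_coord, integral_Bl_coord] at this
    exact_mod_cast this
  have h2 : (Fintype.card ι : ℝ) * ∫ y in Bl ι, ‖y i₀‖ ^ 2 = ∫ y in Bl ι, nsq y := by
    unfold nsq
    rw [integral_finsetSum]
    · simp_rw [h1]
      simp
    · intro i _
      apply ContinuousOn.integrableOn_compact isCompact_Bl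
      fun_prop
  rw [h2]
  calc ∫ y in Bl ι, nsq y ≤ ∫ y in Bl ι, (1 : ℝ) := by
        apply setIntegral_mono_on
        · exact continuous_nsq.continuousOn.integrableOn_compact isCompact_Bl
        · exact integrableOn_const (hs := volume_Bl_ne_top)
        · exact isClosed_Bl.measurableSet
        · intro y hy; exact hy
    _ = (volume (Bl ι)).toReal := by
        simp [Measure.real]

/-- real version of the second moment bound -/
lemma integral_Bl_vecMul_le (B : Matrix ι ι ℂ) :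
    (Fintype.card ι : ℝ) * ∫ y in Bl ι, nsq (y ᵥ* B)
      ≤ (Bᴴ * B).trace.re * (volume (Bl ι)).toReal := by
  rcases isEmpty_or_nonempty ι with hι | ⟨⟨i₀⟩⟩
  · simp [Matrix.trace]
  have h := integral_Bl_vecMul B i₀
  rw [integral_complex_ofReal, integral_Bl_coord] at h
  have htr : (∑ j, ∑ i, B i j * star (B i j)) = (((Bᴴ * B).trace.re : ℝ) : ℂ) := by
    have h3 : (∑ j, ∑ i, B i j * star (B i j)) = ((∑ j, ∑ i, ‖B i j‖ ^ 2 : ℝ) : ℂ) := by
      push_cast
      refine Finset.sum_congr rfl fun j _ => Finset.sum_congr rfl fun i _ => ?_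
      rw [← Complex.ofReal_pow, ← Complex.normSq_eq_norm_sq]
      exact Complex.mul_conj _
    have h4 : (Bᴴ * B).trace = ∑ j, ∑ i, B i j * star (B i j) := by
      simp only [Matrix.trace, Matrix.diag, Matrix.mul_apply, conjTranspose_apply]
      refine Finset.sum_congr rfl fun j _ => Finset.sum_congr rfl fun i _ => ?_
      ring
    rw [h4, h3, Complex.ofReal_re]
  rw [htr] at h
  have h' : ∫ y in Bl ι, nsq (y ᵥ* B) = (∫ y in Bl ι, ‖y i₀‖ ^ 2) * (Bᴴ * B).trace.re := by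
    exact_mod_cast h
  rw [h']
  have h5 := card_mul_integral_Bl_coord_le i₀
  have h6 : 0 ≤ (Bᴴ * B).trace.re := by
    have : (0 : ℂ) ≤ (Bᴴ * B).trace := (posSemidef_conjTranspose_mul_self B).trace_nonneg
    exact (Complex.le_def.mp this).1
  nlinarith

omit [DecidableEq ι] in
lemma norm_dot_sq_le (y z : ι → ℂ) : ‖y ⬝ᵥ z‖ ^ 2 ≤ nsq y * nsq z := by
  have h1 : ‖y ⬝ᵥ z‖ ≤ ∑ i, ‖y i‖ * ‖z i‖ := by
    unfold dotProduct
    refine (norm_sum_le _ _).trans (le_of_eq ?_)
    simp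
  have h2 : (∑ i, ‖y i‖ * ‖z i‖) ^ 2 ≤ (∑ i, ‖y i‖ ^ 2) * ∑ i, ‖z i‖ ^ 2 :=
    Finset.sum_mul_sq_le_sq_mul_sq _ _ _
  calc ‖y ⬝ᵥ z‖ ^ 2 ≤ (∑ i, ‖y i‖ * ‖z i‖) ^ 2 := by gcongr
    _ ≤ _ := h2

omit [DecidableEq ι] in
lemma dot_star_self (y : ι → ℂ) : y ⬝ᵥ star y = ((nsq y : ℝ) : ℂ) := by
  unfold dotProduct nsq
  push_cast
  refine Finset.sum_congr rfl fun j _ => ?_
  rw [← Complex.ofReal_pow, ← Complex.normSq_eq_norm_sq]
  exact Complex.mul_conj _

omit [DecidableEq ι] in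
lemma nsq_star (y : ι → ℂ) : nsq (star y) = nsq y := by
  unfold nsq; simp

/-- the set of row vectors `y` with `|y z|² ≤ z* M z` for all `z` -/
def Ell (M : Matrix ι ι ℂ) : Set (ι → ℂ) :=
  {y | ∀ z : ι → ℂ, ‖y ⬝ᵥ z‖ ^ 2 ≤ (star z ⬝ᵥ (M *ᵥ z)).re}

omit [DecidableEq ι] in
lemma isClosed_Ell (M : Matrix ι ι ℂ) : IsClosed (Ell M) := by
  have : Ell M = ⋂ z : ι → ℂ, {y | ‖y ⬝ᵥ z‖ ^ 2 ≤ (star z ⬝ᵥ (M *ᵥ z)).re} := by
    ext y; simp [Ell]
  rw [this]
  refine isClosed_iInter fun z => isClosed_le ?_ continuous_const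
  unfold dotProduct
  fun_prop

omit [DecidableEq ι] in
lemma Ell_null (M : Matrix ι ι ℂ) (z : ι → ℂ) (hz : z ≠ 0)
    (h : (star z ⬝ᵥ (M *ᵥ z)).re ≤ 0) : volume (Ell M) = 0 := by
  let S : Submodule ℝ (ι → ℂ) :=
    { carrier := {y | y ⬝ᵥ z = 0}
      add_mem' := by
        intro a b ha hb
        have ha' : a ⬝ᵥ z = 0 := ha
        have hb' : b ⬝ᵥ z = 0 := hb
        show (a + b) ⬝ᵥ z = 0
        rw [add_dotProduct, ha', hb', add_zero]
      zero_mem' := by
        show (0 : ι → ℂ) ⬝ᵥ z = 0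
        simp
      smul_mem' := by
        intro c a ha
        have ha' : a ⬝ᵥ z = 0 := ha
        show (c • a) ⬝ᵥ z = 0
        rw [smul_dotProduct, ha', smul_zero] }
  have hS : S ≠ ⊤ := by
    intro hS
    have h1 : star z ∈ S := by rw [hS]; trivial
    have h2 : star z ⬝ᵥ z = 0 := h1
    rw [dotProduct_comm, dot_star_self] at h2
    have h3 : nsq z = 0 := by exact_mod_cast h2
    apply hz
    ext i
    have h4 : ‖z i‖ ^ 2 ≤ nsq z :=
      Finset.single_le_sum (f := fun i => ‖z i‖ ^ 2) (fun i _ => by positivity)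
        (Finset.mem_univ i)
    rw [h3] at h4
    have h5 : ‖z i‖ = 0 := by
      have := norm_nonneg (z i)
      nlinarith
    simpa using h5
  have h1 := Measure.addHaar_submodule (volume : Measure (ι → ℂ)) S hS
  refine measure_mono_null ?_ h1
  intro y hy
  have h2 : ‖y ⬝ᵥ z‖ ^ 2 ≤ (star z ⬝ᵥ (M *ᵥ z)).re := hy z
  have h3 : ‖y ⬝ᵥ z‖ = 0 := by
    have := norm_nonneg (y ⬝ᵥ z)
    nlinarith
  show y ⬝ᵥ z = 0
  simpa using h3

/-- Right multiplication by an invertible matrix. -/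
noncomputable def rmul (B : Matrix ι ι ℂ) (hB : IsUnit B.det) : (ι → ℂ) ≃L[ℝ] (ι → ℂ) :=
  (({ toFun := fun y => y ᵥ* B
      map_add' := fun x y => Matrix.add_vecMul _ _ _
      map_smul' := fun c x => Matrix.smul_vecMul _ _ _
      invFun := fun y => y ᵥ* B⁻¹
      left_inv := fun y => by
        show (y ᵥ* B) ᵥ* B⁻¹ = y
        rw [Matrix.vecMul_vecMul, Matrix.mul_nonsing_inv B hB, Matrix.vecMul_one]
      right_inv := fun y => by
        show (y ᵥ* B⁻¹) ᵥ* B = y
        rw [Matrix.vecMul_vecMul, Matrix.nonsing_inv_mul B hB, Matrix.vecMul_one] } :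
      (ι → ℂ) ≃ₗ[ℂ] (ι → ℂ)).restrictScalars ℝ).toContinuousLinearEquiv

lemma rmul_apply (B : Matrix ι ι ℂ) (hB : IsUnit B.det) (y : ι → ℂ) : rmul B hB y = y ᵥ* B := rfl

lemma Ell_eq (B : Matrix ι ι ℂ) (hB : IsUnit B.det) :
    rmul B hB ⁻¹' (Ell (Bᴴ * B)) = Bl ι := by
  have hq : ∀ z : ι → ℂ, (star z ⬝ᵥ ((Bᴴ * B) *ᵥ z)).re = nsq (B *ᵥ z) := by
    intro z
    have : star z ⬝ᵥ ((Bᴴ * B) *ᵥ z) = (B *ᵥ z) ⬝ᵥ star (B *ᵥ z) := by
      rw [← Matrix.mulVec_mulVec, dotProduct_mulVec, vecMul_conjTranspose, star_star,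
        dotProduct_comm]
    rw [this, dot_star_self, Complex.ofReal_re]
  ext y
  simp only [Set.mem_preimage, Ell, Set.mem_ofPred_eq, rmul_apply, Bl, hq]
  constructor
  · intro h
    have h1 := h (B⁻¹ *ᵥ star y)
    rw [← dotProduct_mulVec, Matrix.mulVec_mulVec, Matrix.mul_nonsing_inv B hB,
      Matrix.one_mulVec, dot_star_self, nsq_star] at h1
    rw [Complex.norm_real, Real.norm_eq_abs, sq_abs] at h1
    have h2 := nsq_nonneg y
    by_contra h3
    push Not at h3
    nlinarith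
  · intro h z
    rw [← dotProduct_mulVec]
    refine (norm_dot_sq_le _ _).trans ?_
    have h2 := nsq_nonneg (B *ᵥ z)
    nlinarith

/-- Second moment bound for ellipsoids. -/
theorem ellipsoid_bound (M : Matrix ι ι ℂ) (hM : M.IsHermitian) :
    (Fintype.card ι : ENNReal) * ∫⁻ y in Ell M, ENNReal.ofReal (nsq y)
      ≤ ENNReal.ofReal M.trace.re * volume (Ell M) := by
  by_cases hpos : ∀ z : ι → ℂ, z ≠ 0 → 0 < (star z ⬝ᵥ (M *ᵥ z)).re
  · have hPD : M.PosDef := by
      refine PosDef.of_dotProduct_mulVec_pos hM fun z hz => ?_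
      rw [Complex.lt_def]
      refine ⟨hpos z hz, ?_⟩
      have := hM.im_star_dotProduct_mulVec_self z
      exact this.symm
    obtain ⟨B, hBM⟩ := CStarAlgebra.nonneg_iff_eq_star_mul_self.mp hPD.posSemidef.nonneg
    have hBM' : M = Bᴴ * B := hBM
    have hB : IsUnit B.det := by
      have h1 : IsUnit M.det := (Matrix.isUnit_iff_isUnit_det M).mp hPD.isUnit
      rw [hBM', Matrix.det_mul] at h1
      exact isUnit_of_mul_isUnit_right h1
    obtain ⟨c, hc1, hc2⟩ := setLIntegral_scale volume (rmul B hB) (Ell M)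
      (fun y => ENNReal.ofReal (nsq y)) (ENNReal.measurable_ofReal.comp continuous_nsq.measurable)
      (isClosed_Ell M).measurableSet
    rw [hc1, hc2]
    have hE : rmul B hB ⁻¹' (Ell M) = Bl ι := by rw [hBM']; exact Ell_eq B hB
    rw [hE]
    have h2 := integral_Bl_vecMul_le B
    have hcont : Continuous fun y : ι → ℂ => nsq (y ᵥ* B) :=
      continuous_nsq.comp (rmul B hB).continuous
    have h3 : ∫⁻ y in Bl ι, ENNReal.ofReal (nsq (rmul B hB y))
        = ENNReal.ofReal (∫ y in Bl ι, nsq (y ᵥ* B)) := by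
      rw [ofReal_integral_eq_lintegral_ofReal]
      · rfl
      · exact hcont.continuousOn.integrableOn_compact isCompact_Bl
      · exact Filter.Eventually.of_forall fun y => nsq_nonneg _
    rw [h3]
    have h4 : (Fintype.card ι : ENNReal) * ENNReal.ofReal (∫ y in Bl ι, nsq (y ᵥ* B))
        ≤ ENNReal.ofReal M.trace.re * volume (Bl ι) := by
      have h5 : volume (Bl ι) = ENNReal.ofReal (volume (Bl ι)).toReal :=
        (ENNReal.ofReal_toReal volume_Bl_ne_top).symm
      rw [h5, ← ENNReal.ofReal_natCast, ← ENNReal.ofReal_mul (by positivity),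
        ← ENNReal.ofReal_mul' (by positivity)]
      rw [hBM']
      exact ENNReal.ofReal_le_ofReal h2
    calc (Fintype.card ι : ENNReal) * ((c : ENNReal) * ENNReal.ofReal (∫ y in Bl ι, nsq (y ᵥ* B)))
        = (c : ENNReal) *
          ((Fintype.card ι : ENNReal) * ENNReal.ofReal (∫ y in Bl ι, nsq (y ᵥ* B))) := by ring
      _ ≤ (c : ENNReal) * (ENNReal.ofReal M.trace.re * volume (Bl ι)) := by gcongr
      _ = _ := by ring
  · push Not at hpos
    obtain ⟨z, hz, h⟩ := hpos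
    have h0 := Ell_null M z hz h
    rw [h0, Measure.restrict_eq_zero.mpr h0]
    simp

end Pool.Agent.Lib.MP_26fc11_gt
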