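import Pool.Agent.Lib.MP_26fc11_gt.Vol

set_option autoImplicit false

namespace Pool.Agent.Lib.MP_26fc11_gt

open MeasureTheory Matrix
open scoped MatrixOrder ComplexOrder

/-- Points of the polar of the Steiner symmetral coming from symmetric perturbations. -/
lemma steiner_polar {X : Type*} [NormedAddCommGroup X] [InnerProductSpace ℝ X]
    (K : Set X) (hK : IsCompact K) (u : X) (hu : ‖u‖ = 1) (y c : X)
    (hyu : inner ℝ u y = 0) (h1 : ∀ x ∈ K, inner ℝ x (y + c) ≤ (1 : ℝ))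
    (h2 : ∀ x ∈ K, inner ℝ x (y - c) ≤ (1 : ℝ)) (z : X)
    (hz1 : ∃ s : ℝ, z + s • u ∈ K)
    (hz2 : ENNReal.ofReal (2 * |inner ℝ z u|) ≤ volume {s : ℝ | z + s • u ∈ K}) :
    inner ℝ z (y + (inner ℝ u c : ℝ) • u) ≤ (1 : ℝ) := by
  set I : Set ℝ := {s : ℝ | z + s • u ∈ K} with hI
  have hcont : Continuous fun s : ℝ => z + s • u := by fun_prop
  have hIc : IsClosed I := hK.isClosed.preimage hcont
  obtain ⟨R, hR⟩ := hK.isBounded.exists_norm_le
  have hIb : Bornology.IsBounded I := by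
    rw [isBounded_iff_forall_norm_le]
    refine ⟨R + ‖z‖, fun s hs => ?_⟩
    have hs' : z + s • u ∈ K := hs
    calc ‖s‖ = ‖s • u‖ := by rw [norm_smul, hu, mul_one]
      _ = ‖(z + s • u) - z‖ := by congr 1; abel
      _ ≤ ‖z + s • u‖ + ‖z‖ := norm_sub_le _ _
      _ ≤ R + ‖z‖ := by gcongr; exact hR _ hs'
  have hIcomp : IsCompact I := Metric.isCompact_of_isClosed_isBounded hIc hIb
  have hIne : I.Nonempty := hz1
  set α := sInf I with hα
  set β := sSup I with hβ
  have hαI : α ∈ I := hIcomp.sInf_mem hIne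
  have hβI : β ∈ I := hIcomp.sSup_mem hIne
  have hp : z + α • u ∈ K := hαI
  have hq : z + β • u ∈ K := hβI
  have hαβ : α ≤ β := csInf_le_csSup hIne hIcomp.bddBelow hIcomp.bddAbove
  have hsub : I ⊆ Set.Icc α β := fun s hs =>
    ⟨csInf_le hIcomp.bddBelow hs, le_csSup hIcomp.bddAbove hs⟩
  have hvol : volume I ≤ ENNReal.ofReal (β - α) := by
    calc volume I ≤ volume (Set.Icc α β) := measure_mono hsub
      _ = ENNReal.ofReal (β - α) := Real.volume_Icc
  have h3 : 2 * |inner ℝ z u| ≤ β - α :=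
    (ENNReal.ofReal_le_ofReal_iff (by linarith)).mp (hz2.trans hvol)
  have e1 := h1 _ hq
  have e2 := h2 _ hp
  have e3 := h2 _ hq
  have e4 := h1 _ hp
  simp only [inner_add_left, inner_add_right, inner_sub_right, real_inner_smul_left,
    real_inner_smul_right] at e1 e2 e3 e4 ⊢
  rw [hyu] at e1 e2 e3 e4
  set s : ℝ := inner ℝ u c with hs
  set t : ℝ := inner ℝ z u with ht
  have h5 : s * t ≤ |s| * |t| := by rw [← abs_mul]; exact le_abs_self _
  have h6 : |s| * (2 * |t|) ≤ |s| * (β - α) := by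
    have := abs_nonneg s
    gcongr
  rcases abs_cases s with ⟨h7, h8⟩ | ⟨h7, h8⟩
  · rw [h7] at h5 h6
    nlinarith
  · rw [h7] at h5 h6
    nlinarith

/-- the real inner product on matrices -/
noncomputable def Bf {N : ℕ} (X Y : Fin N → Fin N → ℂ) : ℝ :=
  (∑ p : Fin N × Fin N, star (X p.1 p.2) * Y p.1 p.2).re

/-- the real dimension -/
noncomputable def dimN (N : ℕ) : ℕ := Module.finrank ℝ (EuclideanSpace ℂ (Fin N × Fin N))

/-- identification of matrices with Euclidean space -/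
noncomputable def TE (N : ℕ) : (Fin N → Fin N → ℂ) ≃L[ℝ] EuclideanSpace ℝ (Fin (dimN N)) :=
  (((LinearEquiv.curry ℝ ℂ (Fin N) (Fin N)).symm.trans
    (WithLp.linearEquiv 2 ℝ (Fin N × Fin N → ℂ)).symm).trans
    (stdOrthonormalBasis ℝ (EuclideanSpace ℂ (Fin N × Fin N))).repr.toLinearEquiv).toContinuousLinearEquiv

lemma inner_TE {N : ℕ} (X Y : Fin N → Fin N → ℂ) : inner ℝ (TE N X) (TE N Y) = Bf X Y := by
  have h1 : inner ℝ (TE N X) (TE N Y)
      = inner ℝ (WithLp.toLp 2 (fun p : Fin N × Fin N => X p.1 p.2) :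
          EuclideanSpace ℂ (Fin N × Fin N)) (WithLp.toLp 2 (fun p : Fin N × Fin N => Y p.1 p.2)) :=
    (stdOrthonormalBasis ℝ (EuclideanSpace ℂ (Fin N × Fin N))).repr.inner_map_map _ _
  rw [h1, PiLp.inner_apply]
  unfold Bf
  rw [Complex.re_sum]
  refine Finset.sum_congr rfl fun p _ => ?_
  rw [Complex.inner, mul_comm]
  rfl

lemma Bf_self {N : ℕ} (X : Fin N → Fin N → ℂ) : Bf X X = hs X := by
  have h := wU_self X
  unfold wU at h
  unfold Bf
  rw [h, Complex.ofReal_re]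

lemma Bf_eq_re_wU {N : ℕ} (X Y : Fin N → Fin N → ℂ) : Bf X Y = (wU X Y).re := rfl

lemma Bf_comm {N : ℕ} (X Y : Fin N → Fin N → ℂ) : Bf X Y = Bf Y X := by
  rw [← inner_TE, ← inner_TE, real_inner_comm]

/-- rank one matrices -/
def rk {N : ℕ} (ξ η : Fin N → ℂ) : Fin N → Fin N → ℂ := fun a b => ξ a * star (η b)

lemma Bf_rk {N : ℕ} (ξ η : Fin N → ℂ) (Y : Fin N → Fin N → ℂ) :
    Bf (rk ξ η) Y = (star ξ ⬝ᵥ (Matrix.of Y *ᵥ η)).re := by
  unfold Bf rk
  congr 1
  rw [Fintype.sum_prod_type]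
  unfold dotProduct mulVec dotProduct
  refine Finset.sum_congr rfl fun a _ => ?_
  rw [Finset.mul_sum]
  refine Finset.sum_congr rfl fun b _ => ?_
  simp only [star_mul', star_star, Matrix.of_apply, Pi.star_apply]
  ring

/-- `MB` is the polar of the rank one matrices -/
lemma mem_MB_iff {N : ℕ} (Y : Fin N → Fin N → ℂ) :
    Y ∈ MB N ↔ ∀ ξ η : Fin N → ℂ, nsq ξ ≤ 1 → nsq η ≤ 1 → Bf (rk ξ η) Y ≤ 1 := by
  constructor
  · intro hY ξ η hξ hη
    rw [Bf_rk]
    have h1 : ‖star ξ ⬝ᵥ (Matrix.of Y *ᵥ η)‖ ^ 2 ≤ 1 := by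
      calc _ ≤ nsq (star ξ) * nsq (Matrix.of Y *ᵥ η) := norm_dot_sq_le _ _
        _ ≤ 1 * nsq η := by
          rw [nsq_star]
          have h2 : nsq (Matrix.of Y *ᵥ η) ≤ nsq η := hY η
          have h3 := nsq_nonneg ξ
          have h4 := nsq_nonneg (Matrix.of Y *ᵥ η)
          gcongr
        _ ≤ 1 := by rw [one_mul]; exact hη
    have h5 : ‖star ξ ⬝ᵥ (Matrix.of Y *ᵥ η)‖ ≤ 1 := by
      have := norm_nonneg (star ξ ⬝ᵥ (Matrix.of Y *ᵥ η))
      nlinarith
    exact (Complex.re_le_norm _).trans h5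
  · intro h z
    show nsq (Matrix.of Y *ᵥ z) ≤ nsq z
    by_contra hlt
    push Not at hlt
    set a := nsq (Matrix.of Y *ᵥ z) with ha
    have hb0 := nsq_nonneg z
    have ha0 : 0 < a := lt_of_le_of_lt hb0 hlt
    -- choose r with nsq z < r < a, r > 0
    set r := (nsq z + a) / 2 with hr
    have hr0 : 0 < r := by linarith
    have hra : r < a := by linarith
    have hzr : nsq z ≤ r := by linarith
    have hnsq : ∀ (t : ℝ) (x : Fin N → ℂ), nsq ((t : ℂ) • x) = t ^ 2 * nsq x := by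
      intro t x
      unfold nsq
      rw [Finset.mul_sum]
      refine Finset.sum_congr rfl fun i _ => ?_
      rw [Pi.smul_apply, norm_smul, mul_pow, Complex.norm_real, Real.norm_eq_abs, sq_abs]
    have h1 := h (((Real.sqrt a)⁻¹ : ℝ) • (Matrix.of Y *ᵥ z)) (((Real.sqrt r)⁻¹ : ℝ) • z) (by
      have := hnsq ((Real.sqrt a)⁻¹) (Matrix.of Y *ᵥ z)
      rw [show (((Real.sqrt a)⁻¹ : ℝ) • (Matrix.of Y *ᵥ z)) =
        (((Real.sqrt a)⁻¹ : ℝ) : ℂ) • (Matrix.of Y *ᵥ z) from rfl, this, inv_pow,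
        Real.sq_sqrt ha0.le, ← ha]
      exact le_of_eq (inv_mul_cancel₀ ha0.ne')) (by
      have := hnsq ((Real.sqrt r)⁻¹) z
      rw [show (((Real.sqrt r)⁻¹ : ℝ) • z) =
        (((Real.sqrt r)⁻¹ : ℝ) : ℂ) • z from rfl, this, inv_pow,
        Real.sq_sqrt hr0.le]
      rw [inv_mul_le_iff₀ hr0, mul_one]
      exact hzr)
    rw [Bf_rk] at h1
    have h2 : star (((Real.sqrt a)⁻¹ : ℝ) • (Matrix.of Y *ᵥ z)) ⬝ᵥ
        (Matrix.of Y *ᵥ (((Real.sqrt r)⁻¹ : ℝ) • z))
        = (((Real.sqrt a)⁻¹ * (Real.sqrt r)⁻¹ * a : ℝ) : ℂ) := by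
      rw [Matrix.mulVec_smul, dotProduct_smul, star_smul, smul_dotProduct, dotProduct_comm,
        dot_star_self, ← ha]
      simp only [Complex.real_smul, star_trivial]
      push_cast
      ring
    rw [h2, Complex.ofReal_re] at h1
    have hsa : Real.sqrt a * Real.sqrt a = a := Real.mul_self_sqrt ha0.le
    have hsa0 : 0 < Real.sqrt a := Real.sqrt_pos.mpr ha0
    have hsr0 : 0 < Real.sqrt r := Real.sqrt_pos.mpr hr0
    have h3 : (Real.sqrt a)⁻¹ * (Real.sqrt r)⁻¹ * a = Real.sqrt a / Real.sqrt r := by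
      field_simp
      rw [sq, hsa]
    rw [h3, div_le_one hsr0] at h1
    have h4 : Real.sqrt r < Real.sqrt a := Real.sqrt_lt_sqrt hr0.le hra
    linarith

/-- generating set of the counterexample -/
def Sgen (N : ℕ) : Set (EuclideanSpace ℝ (Fin (dimN N))) :=
  (fun p : (Fin N → ℂ) × (Fin N → ℂ) => TE N (rk p.1 p.2)) '' (Bl (Fin N) ×ˢ Bl (Fin N))

/-- the counterexample -/
def KN (N : ℕ) : Set (EuclideanSpace ℝ (Fin (dimN N))) := closure (convexHull ℝ (Sgen N))

lemma isCompact_Sgen (N : ℕ) : IsCompact (Sgen N) := by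
  apply (isCompact_Bl.prod isCompact_Bl).image
  apply (TE N).continuous.comp
  unfold rk
  fun_prop

lemma isCompact_KN (N : ℕ) : IsCompact (KN N) :=
  Metric.isCompact_of_isClosed_isBounded isClosed_closure
    ((isBounded_convexHull.mpr (isCompact_Sgen N).isBounded).closure)

lemma convex_KN (N : ℕ) : Convex ℝ (KN N) := (convex_convexHull ℝ _).closure

lemma KN_min (N : ℕ) (A : Set (EuclideanSpace ℝ (Fin (dimN N)))) (hA : IsClosed A)
    (hA2 : Convex ℝ A) (h : ∀ ξ η : Fin N → ℂ, nsq ξ ≤ 1 → nsq η ≤ 1 → TE N (rk ξ η) ∈ A) :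
    KN N ⊆ A := by
  apply closure_minimal _ hA
  apply convexHull_min _ hA2
  rintro _ ⟨p, ⟨hp1, hp2⟩, rfl⟩
  exact h p.1 p.2 hp1 hp2

lemma mem_KN {N : ℕ} (ξ η : Fin N → ℂ) (hξ : nsq ξ ≤ 1) (hη : nsq η ≤ 1) :
    TE N (rk ξ η) ∈ KN N :=
  subset_closure (subset_convexHull ℝ _ ⟨(ξ, η), ⟨hξ, hη⟩, rfl⟩)

lemma neg_mem_KN (N : ℕ) : ∀ x ∈ KN N, -x ∈ KN N := by
  have h : KN N ⊆ (fun x => -x) ⁻¹' (KN N) := by
    apply KN_min
    · exact isClosed_closure.preimage continuous_neg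
    · exact (convex_KN N).neg
    · intro ξ η hξ hη
      show - TE N (rk ξ η) ∈ KN N
      have : - TE N (rk ξ η) = TE N (rk (-ξ) η) := by
        rw [← map_neg]
        congr 1
        ext a b
        simp [rk]
      rw [this]
      refine mem_KN _ _ ?_ hη
      have : nsq (-ξ) = nsq ξ := by unfold nsq; simp
      rw [this]; exact hξ
  exact h

lemma polar_KN {N : ℕ} (Y : Fin N → Fin N → ℂ) :
    (∀ x ∈ KN N, inner ℝ x (TE N Y) ≤ (1 : ℝ)) ↔ Y ∈ MB N := by
  rw [mem_MB_iff]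
  constructor
  · intro h ξ η hξ hη
    have := h _ (mem_KN ξ η hξ hη)
    rwa [inner_TE] at this
  · intro h
    have : KN N ⊆ {x | inner ℝ x (TE N Y) ≤ (1 : ℝ)} := by
      apply KN_min
      · exact isClosed_le (by fun_prop) continuous_const
      · apply convex_halfSpace_le
        constructor
        · intro x y; exact inner_add_left _ _ _
        · intro c x; rw [real_inner_smul_left]; rfl
      · intro ξ η hξ hη
        show inner ℝ (TE N (rk ξ η)) (TE N Y) ≤ (1 : ℝ)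
        rw [inner_TE]
        exact h ξ η hξ hη
    exact this

lemma interior_KN (N : ℕ) : (interior (KN N)).Nonempty := by
  rw [(convex_KN N).interior_nonempty_iff_affineSpan_eq_top]
  have h0 : (0 : EuclideanSpace ℝ (Fin (dimN N))) ∈ KN N := by
    have := mem_KN (N := N) 0 0 (by simp [nsq]) (by simp [nsq])
    have h : rk (0 : Fin N → ℂ) 0 = 0 := by ext a b; simp [rk]
    rwa [h, map_zero] at this
  have hspan : Submodule.span ℝ (KN N) = ⊤ := by
    rw [← Submodule.orthogonal_eq_bot_iff, Submodule.eq_bot_iff]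
    intro y hy
    rw [Submodule.mem_orthogonal] at hy
    obtain ⟨Y, rfl⟩ := (TE N).surjective y
    -- every multiple of Y lies in MB, which is bounded
    by_contra hne
    have hY0 : Y ≠ 0 := by
      intro h; apply hne; rw [h, map_zero]
    have hall : ∀ t : ℝ, t • Y ∈ MB N := by
      intro t
      rw [← polar_KN]
      intro x hx
      rw [map_smul, real_inner_smul_right, hy x (Submodule.subset_span hx), mul_zero]
      exact zero_le_one
    obtain ⟨R, hR⟩ := (isCompact_MB N).isBounded.exists_norm_le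
    have hYpos : 0 < ‖Y‖ := norm_pos_iff.mpr hY0
    have h1 := hR _ (hall ((|R| + 1) / ‖Y‖))
    rw [norm_smul, Real.norm_eq_abs, abs_of_pos (by positivity), div_mul_cancel₀ _ hYpos.ne'] at h1
    have := le_abs_self R
    linarith
  have h1 := affineSpan_insert_zero (k := ℝ) (KN N)
  rw [Set.insert_eq_of_mem h0, hspan] at h1
  have h2 : (affineSpan ℝ (KN N) : Set (EuclideanSpace ℝ (Fin (dimN N)))) = Set.univ := by
    rw [h1]; rfl
  exact (AffineSubspace.coe_eq_univ_iff _).mp h2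

/-- the polar body -/
def polarOf {n : ℕ} (K : Set (EuclideanSpace ℝ (Fin n))) : Set (EuclideanSpace ℝ (Fin n)) :=
  {y | ∀ x ∈ K, inner ℝ x y ≤ (1 : ℝ)}

/-- the Steiner symmetral -/
def steinerOf {n : ℕ} (K : Set (EuclideanSpace ℝ (Fin n))) (u : EuclideanSpace ℝ (Fin n)) :
    Set (EuclideanSpace ℝ (Fin n)) :=
  {z : EuclideanSpace ℝ (Fin n) |
                (∃ s : ℝ, z + s • u ∈ K) ∧
                ENNReal.ofReal (2 * |inner ℝ z u|) ≤
                  MeasureTheory.volume {s : ℝ | z + s • u ∈ K}}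

/-- the region `SU` is contained in the polar of the Steiner symmetral -/
lemma SU_subset {N : ℕ} (U : Fin N → Fin N → ℂ) (hU : hs U = 1) :
    SU U ⊆ TE N ⁻¹' (polarOf (steinerOf (KN N) (TE N U))) := by
  intro v hv
  have hv' : ENNReal.ofReal (2 * |(wU U v).re|) < FU U (v - ((wU U v).re : ℂ) • U) := hv
  set σ : ℝ := (wU U v).re with hσ
  set Y : Fin N → Fin N → ℂ := v - (σ : ℂ) • U with hY
  have hYMB : Y ∈ MB N := by
    by_contra h
    unfold FU at hv'
    rw [Set.indicator_of_notMem h] at hv'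
    exact absurd hv' not_lt_zero
  have hPsi : 2 * |σ| < Psi U Y := by
    unfold FU at hv'
    rw [Set.indicator_of_mem hYMB] at hv'
    exact (ENNReal.ofReal_lt_ofReal_iff'.mp hv').1
  have hPsi0 : 0 < Psi U Y := lt_of_le_of_lt (by positivity) hPsi
  set t : ℝ := σ / Psi U Y with ht
  have ht2 : |t| ≤ 1 / 2 := by
    rw [ht, abs_div, abs_of_pos hPsi0, div_le_iff₀ hPsi0]
    linarith
  set C : Fin N → Fin N → ℂ := fun a b => (t : ℂ) * CU U Y a b with hC
  -- U is a unit vector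
  have hunorm : ‖TE N U‖ = 1 := by
    have h1 : ‖TE N U‖ ^ 2 = 1 := by
      rw [← real_inner_self_eq_norm_sq, inner_TE, Bf_self, hU]
    have h2 := norm_nonneg (TE N U)
    nlinarith
  -- Y is orthogonal to U
  have hort : inner ℝ (TE N U) (TE N Y) = 0 := by
    rw [inner_TE, Bf_eq_re_wU]
    have h1 : wU U Y = wU U v - (σ : ℂ) * wU U U := by
      have : wL U Y = wL U v - (σ : ℂ) • wL U U := by rw [hY, map_sub, map_smul]
      exact this
    rw [h1, wU_self, hU, Complex.sub_re]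
    simp [hσ]
  have hUC : inner ℝ (TE N U) (TE N C) = σ := by
    rw [inner_TE]
    unfold Bf
    have h1 : (∑ p : Fin N × Fin N, star (U p.1 p.2) * C p.1 p.2)
        = (t : ℂ) * ∑ p : Fin N × Fin N, star (U p.1 p.2) * CU U Y p.1 p.2 := by
      rw [Finset.mul_sum]
      refine Finset.sum_congr rfl fun p _ => ?_
      rw [hC]
      ring
    rw [h1, Complex.re_ofReal_mul, ← Psi_eq, ht]
    field_simp
  have hadd : Y + C ∈ MB N := by
    rw [mem_MB_iff]
    intro ξ η hξ hη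
    rw [Bf_rk]
    have h1 := pert_bound hU.le hYMB t ht2 ξ η hξ hη
    have h2 : Matrix.of (Y + C) = Matrix.of Y + (t : ℂ) • CU U Y := by
      ext a b; rfl
    rw [h2]; exact h1
  have hsub : Y - C ∈ MB N := by
    rw [mem_MB_iff]
    intro ξ η hξ hη
    rw [Bf_rk]
    have h1 := pert_bound hU.le hYMB (-t) (by rw [abs_neg]; exact ht2) ξ η hξ hη
    have h2 : Matrix.of (Y - C) = Matrix.of Y + ((-t : ℝ) : ℂ) • CU U Y := by
      ext a b
      show Y a b - (t : ℂ) * CU U Y a b = Y a b + ((-t : ℝ) : ℂ) * CU U Y a b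
      push_cast; ring
    rw [h2]; exact h1
  show TE N v ∈ polarOf (steinerOf (KN N) (TE N U))
  intro z hz
  have hz' : (∃ s : ℝ, z + s • TE N U ∈ KN N) ∧
                ENNReal.ofReal (2 * |inner ℝ z (TE N U)|) ≤
                  MeasureTheory.volume {s : ℝ | z + s • TE N U ∈ KN N} := hz
  have h := steiner_polar (KN N) (isCompact_KN N) (TE N U) hunorm (TE N Y) (TE N C) hort
    (by
      intro x hx
      rw [← map_add]
      exact (polar_KN (Y + C)).mpr hadd x hx)
    (by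
      intro x hx
      rw [← map_sub]
      exact (polar_KN (Y - C)).mpr hsub x hx) z hz'.1 hz'.2
  rw [hUC, ← map_smul, ← map_add] at h
  have hfin : Y + σ • U = v := by
    rw [hY]
    ext a b
    show v a b - (σ : ℂ) * U a b + (σ : ℂ) * U a b = v a b
    ring
  rw [hfin] at h
  exact h

lemma dimN_pos (k : ℕ) : 1 ≤ dimN (k + 1) := by
  unfold dimN
  have : Nontrivial (EuclideanSpace ℂ (Fin (k + 1) × Fin (k + 1))) := inferInstance
  exact Module.finrank_pos

/-- Main estimate: for the polar `L` of `KN` (the operator norm ball) every direction is bad. -/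
theorem main_bound (k : ℕ) (hk : 1 ≤ k) (τ : ℝ) (hτ : 0 < τ)
    (hNτ : 24 ≤ ((k : ℝ) + 1) * τ ^ 2) (u : EuclideanSpace ℝ (Fin (dimN (k + 1))))
    (hu : ‖u‖ = 1) :
    ENNReal.ofReal (1 / 24) * volume (polarOf (KN (k + 1))) ≤
      ENNReal.ofReal (Real.pi * τ) * volume (polarOf (steinerOf (KN (k + 1)) u)) := by
  obtain ⟨U, rfl⟩ := (TE (k + 1)).surjective u
  have hU : hs U = 1 := by
    rw [← Bf_self, ← inner_TE, real_inner_self_eq_norm_sq, hu, one_pow]
  have hmap : ((volume : Measure (Fin (k + 1) → Fin (k + 1) → ℂ)).map (TE (k + 1))).IsAddHaarMeasure :=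
    (TE (k + 1)).isAddHaarMeasure_map _
  have hvol := Measure.isAddLeftInvariant_eq_smul
    (volume : Measure (EuclideanSpace ℝ (Fin (dimN (k + 1)))))
    ((volume : Measure (Fin (k + 1) → Fin (k + 1) → ℂ)).map (TE (k + 1)))
  set κ := Measure.addHaarScalarFactor
    (volume : Measure (EuclideanSpace ℝ (Fin (dimN (k + 1)))))
    ((volume : Measure (Fin (k + 1) → Fin (k + 1) → ℂ)).map (TE (k + 1))) with hκ
  have hvolA : ∀ A : Set (EuclideanSpace ℝ (Fin (dimN (k + 1)))),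
      volume A = (κ : ENNReal) * volume (TE (k + 1) ⁻¹' A) := by
    intro A
    conv_lhs => rw [hvol]
    have h3 : ((volume : Measure (Fin (k + 1) → Fin (k + 1) → ℂ)).map (TE (k + 1))) A
        = volume (TE (k + 1) ⁻¹' A) := (TE (k + 1)).toHomeomorph.toMeasurableEquiv.map_apply A
    rw [Measure.smul_apply, h3]
    rfl
  have hpol : TE (k + 1) ⁻¹' (polarOf (KN (k + 1))) = MB (k + 1) := by
    ext Y
    exact polar_KN Y
  rw [hvolA (polarOf (KN (k + 1))), hvolA (polarOf (steinerOf (KN (k + 1)) (TE (k + 1) U))), hpol]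
  have h1 := vol_SU k hk U hU τ hτ hNτ
  have h2 : volume (SU U) ≤
      volume (TE (k + 1) ⁻¹' (polarOf (steinerOf (KN (k + 1)) (TE (k + 1) U)))) :=
    measure_mono (SU_subset U hU)
  have h3 : ENNReal.ofReal ((volume (MB (k + 1))).toReal / 24)
      = ENNReal.ofReal (1 / 24) * volume (MB (k + 1)) := by
    rw [div_eq_mul_one_div, mul_comm, ENNReal.ofReal_mul (by norm_num),
      ENNReal.ofReal_toReal (volume_MB_ne_top _)]
  calc ENNReal.ofReal (1 / 24) * ((κ : ENNReal) * volume (MB (k + 1)))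
      = (κ : ENNReal) * (ENNReal.ofReal (1 / 24) * volume (MB (k + 1))) := by ring
    _ ≤ (κ : ENNReal) * (ENNReal.ofReal (Real.pi * τ) *
        volume (TE (k + 1) ⁻¹' (polarOf (steinerOf (KN (k + 1)) (TE (k + 1) U))))) := by
        rw [← h3]
        gcongr
        exact h1.trans (by gcongr)
    _ = _ := by ring

lemma volume_polar_KN (k : ℕ) : volume (polarOf (KN (k + 1))) ≠ 0 ∧
    volume (polarOf (KN (k + 1))) ≠ ⊤ := by
  have hpol : polarOf (KN (k + 1)) = TE (k + 1) '' MB (k + 1) := by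
    ext y
    obtain ⟨Y, rfl⟩ := (TE (k + 1)).surjective y
    rw [(TE (k + 1)).injective.mem_set_image]
    exact polar_KN Y
  constructor
  · rw [hpol]
    apply (Measure.measure_pos_of_mem_nhds volume _).ne'
    · exact 0
    · have := (TE (k + 1)).toHomeomorph.isOpenMap.image_mem_nhds (MB_mem_nhds (k + 1))
      have h0 : (TE (k + 1)).toHomeomorph 0 = 0 := map_zero (TE (k + 1))
      rw [h0] at this
      exact this
  · rw [hpol]
    exact ((isCompact_MB (k + 1)).image (TE (k + 1)).continuous).measure_lt_top.ne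

theorem disproof :
    ¬ (∃ C : ℝ, ∀ n : ℕ, 1 ≤ n → ∀ K : Set (EuclideanSpace ℝ (Fin n)),
      IsCompact K → Convex ℝ K → (interior K).Nonempty → (∀ x ∈ K, -x ∈ K) →
      ∃ u : EuclideanSpace ℝ (Fin n), ‖u‖ = 1 ∧
        MeasureTheory.volume
          {y : EuclideanSpace ℝ (Fin n) |
            ∀ x ∈ {z : EuclideanSpace ℝ (Fin n) |
                (∃ s : ℝ, z + s • u ∈ K) ∧
                ENNReal.ofReal (2 * |inner ℝ z u|) ≤
                  MeasureTheory.volume {s : ℝ | z + s • u ∈ K}},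
              inner ℝ x y ≤ (1 : ℝ)}
        ≤ ENNReal.ofReal C *
          MeasureTheory.volume
            {y : EuclideanSpace ℝ (Fin n) | ∀ x ∈ K, inner ℝ x y ≤ (1 : ℝ)}) := by
  rintro ⟨C, hC⟩
  set Cp : ℝ := max C 0 with hCp
  have hCp0 : 0 ≤ Cp := le_max_right _ _
  have hpi := Real.pi_pos
  set τ : ℝ := 1 / (24 * Real.pi * (Cp + 1)) with hτ
  have hτ0 : 0 < τ := by positivity
  obtain ⟨k₀, hk₀⟩ := exists_nat_ge (24 / τ ^ 2)
  set k : ℕ := max 1 k₀ with hk
  have hk1 : 1 ≤ k := le_max_left _ _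
  have hkτ : 24 ≤ ((k : ℝ) + 1) * τ ^ 2 := by
    have h1 : (k₀ : ℝ) ≤ k := by exact_mod_cast le_max_right 1 k₀
    have h2 : 24 / τ ^ 2 ≤ (k : ℝ) + 1 := by linarith
    rwa [div_le_iff₀ (by positivity)] at h2
  obtain ⟨u, hu, hle⟩ := hC (dimN (k + 1)) (dimN_pos k) (KN (k + 1)) (isCompact_KN _)
    (convex_KN _) (interior_KN _) (neg_mem_KN _)
  have hle' : volume (polarOf (steinerOf (KN (k + 1)) u))
      ≤ ENNReal.ofReal C * volume (polarOf (KN (k + 1))) := hle
  have hmain := main_bound k hk1 τ hτ0 hkτ u hu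
  obtain ⟨hv0, hv1⟩ := volume_polar_KN k
  set v := volume (polarOf (KN (k + 1))) with hv
  have h1 : ENNReal.ofReal (1 / 24) * v ≤ ENNReal.ofReal (Real.pi * τ * Cp) * v := by
    calc ENNReal.ofReal (1 / 24) * v
        ≤ ENNReal.ofReal (Real.pi * τ) * volume (polarOf (steinerOf (KN (k + 1)) u)) := hmain
      _ ≤ ENNReal.ofReal (Real.pi * τ) * (ENNReal.ofReal C * v) := by gcongr
      _ ≤ ENNReal.ofReal (Real.pi * τ) * (ENNReal.ofReal Cp * v) := by
          gcongr
          exact le_max_left _ _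
      _ = ENNReal.ofReal (Real.pi * τ * Cp) * v := by
          rw [ENNReal.ofReal_mul (by positivity : 0 ≤ Real.pi * τ)]
          ring
  have h2 : ENNReal.ofReal (1 / 24) ≤ ENNReal.ofReal (Real.pi * τ * Cp) :=
    (ENNReal.mul_le_mul_iff_left hv0 hv1).mp h1
  have h3 : (1 : ℝ) / 24 ≤ Real.pi * τ * Cp :=
    (ENNReal.ofReal_le_ofReal_iff (by positivity)).mp h2
  have h4 : Real.pi * τ * Cp = Cp / (24 * (Cp + 1)) := by
    rw [hτ]
    field_simp
  rw [h4, div_le_div_iff₀ (by norm_num) (by positivity)] at h3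
  linarith

end Pool.Agent.Lib.MP_26fc11_gt
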