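import Mathlib

set_option autoImplicit false

namespace Pool.Agent.Lib.MP_26fc11_gt

open ContinuousLinearMap

variable {H : Type*} [NormedAddCommGroup H] [InnerProductSpace ℂ H] [CompleteSpace H]

lemma norm_sub_sq_le (Y : H →L[ℂ] H) (hY : ‖Y‖ ≤ 1) (z : H) :
    ‖z - (adjoint Y) (Y z)‖ ^ 2 ≤ ‖z‖ ^ 2 - ‖Y z‖ ^ 2 := by
  have h1 : ‖z - (adjoint Y) (Y z)‖ ^ 2
      = ‖z‖ ^ 2 - 2 * RCLike.re (inner ℂ z ((adjoint Y) (Y z))) + ‖(adjoint Y) (Y z)‖ ^ 2 :=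
    @norm_sub_sq ℂ H _ _ _ z ((adjoint Y) (Y z))
  have h2 : RCLike.re (inner ℂ z ((adjoint Y) (Y z))) = ‖Y z‖ ^ 2 := by
    rw [ContinuousLinearMap.adjoint_inner_right]
    exact inner_self_eq_norm_sq (𝕜 := ℂ) (Y z)
  have h3 : ‖(adjoint Y) (Y z)‖ ≤ ‖Y z‖ := by
    have h := (adjoint Y).le_opNorm (Y z)
    have h4 : ‖adjoint Y‖ = ‖Y‖ := LinearIsometryEquiv.norm_map _ _
    rw [h4] at h
    calc _ ≤ ‖Y‖ * ‖Y z‖ := h
      _ ≤ 1 * ‖Y z‖ := by gcongr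
      _ = _ := one_mul _
  have h5 : ‖(adjoint Y) (Y z)‖ ^ 2 ≤ ‖Y z‖ ^ 2 := by gcongr
  rw [h1, h2]; linarith

/-- The perturbation `(1 - Y Y*) U (1 - Y* Y)` of `Y`. -/
noncomputable def pert (Y U : H →L[ℂ] H) : H →L[ℂ] H :=
  (1 - Y * adjoint Y) * U * (1 - adjoint Y * Y)

lemma pert_apply (Y U : H →L[ℂ] H) (z : H) :
    pert Y U z = U (z - adjoint Y (Y z)) - Y (adjoint Y (U (z - adjoint Y (Y z)))) := rfl

lemma inner_pert (Y U : H →L[ℂ] H) (x z : H) :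
    inner ℂ x (pert Y U z) = inner ℂ (x - Y (adjoint Y x)) (U (z - adjoint Y (Y z))) := by
  rw [pert_apply, inner_sub_right, inner_sub_left]
  congr 1
  rw [← ContinuousLinearMap.adjoint_inner_left, ← ContinuousLinearMap.adjoint_inner_left,
    ContinuousLinearMap.adjoint_adjoint]

lemma key (Y U : H →L[ℂ] H) (hY : ‖Y‖ ≤ 1) (hU : ‖U‖ ≤ 1) (x z : H) (hx : ‖x‖ ≤ 1)
    (hz : ‖z‖ ≤ 1) :
    ‖inner ℂ x (Y z)‖ + (1 / 2) * ‖inner ℂ x (pert Y U z)‖ ≤ 1 := by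
  have hY' : ‖adjoint Y‖ ≤ 1 := by
    have h4 : ‖adjoint Y‖ = ‖Y‖ := LinearIsometryEquiv.norm_map _ _
    rw [h4]; exact hY
  set p := ‖Y z‖ with hp
  set q := ‖adjoint Y x‖ with hq
  have h1 : ‖inner ℂ x (Y z)‖ ≤ p := by
    calc _ ≤ ‖x‖ * ‖Y z‖ := norm_inner_le_norm x (Y z)
      _ ≤ 1 * ‖Y z‖ := by gcongr
      _ = p := one_mul _
  have h2 : ‖inner ℂ x (Y z)‖ ≤ q := by
    rw [← ContinuousLinearMap.adjoint_inner_left]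
    calc _ ≤ ‖adjoint Y x‖ * ‖z‖ := norm_inner_le_norm _ _
      _ ≤ ‖adjoint Y x‖ * 1 := by gcongr
      _ = q := mul_one _
  have h3 : ‖z - (adjoint Y) (Y z)‖ ^ 2 ≤ 1 - p ^ 2 := by
    have := norm_sub_sq_le Y hY z
    have hz2 : ‖z‖ ^ 2 ≤ 1 := by
      have := norm_nonneg z; nlinarith
    linarith
  have h4 : ‖x - Y (adjoint Y x)‖ ^ 2 ≤ 1 - q ^ 2 := by
    have := norm_sub_sq_le (adjoint Y) hY' x
    rw [ContinuousLinearMap.adjoint_adjoint] at this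
    have hz2 : ‖x‖ ^ 2 ≤ 1 := by
      have := norm_nonneg x; nlinarith
    linarith
  have h5 : ‖inner ℂ x (pert Y U z)‖ ≤ ‖x - Y (adjoint Y x)‖ * ‖z - adjoint Y (Y z)‖ := by
    rw [inner_pert]
    calc _ ≤ ‖x - Y (adjoint Y x)‖ * ‖U (z - adjoint Y (Y z))‖ := norm_inner_le_norm _ _
      _ ≤ ‖x - Y (adjoint Y x)‖ * ‖z - adjoint Y (Y z)‖ := by
        gcongr
        calc _ ≤ ‖U‖ * ‖z - adjoint Y (Y z)‖ := U.le_opNorm _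
          _ ≤ 1 * ‖z - adjoint Y (Y z)‖ := by gcongr
          _ = _ := one_mul _
  have h6 := sq_nonneg (‖x - Y (adjoint Y x)‖ - ‖z - adjoint Y (Y z)‖)
  nlinarith [sq_nonneg (p - 1), sq_nonneg (q - 1), norm_nonneg (x - Y (adjoint Y x)),
    norm_nonneg (z - adjoint Y (Y z))]

lemma re_inner_add_pert_le (Y U : H →L[ℂ] H) (hY : ‖Y‖ ≤ 1) (hU : ‖U‖ ≤ 1) (t : ℝ)
    (ht : |t| ≤ 1 / 2) (x z : H) (hx : ‖x‖ ≤ 1) (hz : ‖z‖ ≤ 1) :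
    (inner ℂ x ((Y + (t : ℂ) • pert Y U) z)).re ≤ 1 := by
  have h := key Y U hY hU x z hx hz
  have h1 : inner ℂ x ((Y + (t : ℂ) • pert Y U) z)
      = inner ℂ x (Y z) + (t : ℂ) * inner ℂ x (pert Y U z) := by
    simp [ContinuousLinearMap.add_apply, inner_add_right, inner_smul_right]
  rw [h1]
  calc _ ≤ ‖inner ℂ x (Y z) + (t : ℂ) * inner ℂ x (pert Y U z)‖ := Complex.re_le_norm _
    _ ≤ ‖inner ℂ x (Y z)‖ + ‖(t : ℂ) * inner ℂ x (pert Y U z)‖ := norm_add_le _ _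
    _ = ‖inner ℂ x (Y z)‖ + |t| * ‖inner ℂ x (pert Y U z)‖ := by
      rw [norm_mul, Complex.norm_real, Real.norm_eq_abs]
    _ ≤ ‖inner ℂ x (Y z)‖ + (1 / 2) * ‖inner ℂ x (pert Y U z)‖ := by gcongr
    _ ≤ 1 := h

end Pool.Agent.Lib.MP_26fc11_gt
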