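import Pool.Agent.Lib.MP_26fc11_gt.Psi
import Pool.Agent.Lib.MP_26fc11_gt.Op

set_option autoImplicit false

namespace Pool.Agent.Lib.MP_26fc11_gt

open MeasureTheory Matrix
open scoped MatrixOrder ComplexOrder

variable {N : ℕ}

/-- the operator attached to a matrix -/
noncomputable def op (Y : Matrix (Fin N) (Fin N) ℂ) :
    EuclideanSpace ℂ (Fin N) →L[ℂ] EuclideanSpace ℂ (Fin N) :=
  Matrix.toEuclideanCLM (n := Fin N) (𝕜 := ℂ) Y

lemma op_apply (Y : Matrix (Fin N) (Fin N) ℂ) (x : EuclideanSpace ℂ (Fin N)) :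
    op Y x = WithLp.toLp 2 (Y *ᵥ x.ofLp) := rfl

lemma norm_sq_toLp (x : Fin N → ℂ) : ‖(WithLp.toLp 2 x : EuclideanSpace ℂ (Fin N))‖ ^ 2 = nsq x := by
  rw [EuclideanSpace.norm_sq_eq]; rfl

lemma inner_op (Y : Matrix (Fin N) (Fin N) ℂ) (x z : EuclideanSpace ℂ (Fin N)) :
    inner ℂ x (op Y z) = star x.ofLp ⬝ᵥ (Y *ᵥ z.ofLp) := by
  rw [op_apply, EuclideanSpace.inner_eq_star_dotProduct, dotProduct_comm]

lemma op_norm_le {Y : Fin N → Fin N → ℂ} (hY : Y ∈ MB N) : ‖op (Matrix.of Y)‖ ≤ 1 := by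
  refine ContinuousLinearMap.opNorm_le_bound _ zero_le_one fun x => ?_
  rw [one_mul]
  apply le_of_sq_le_sq _ (norm_nonneg _)
  rw [op_apply, norm_sq_toLp]
  have h := hY x.ofLp
  calc nsq (Matrix.of Y *ᵥ x.ofLp) = ∑ i, ‖Y i ⬝ᵥ x.ofLp‖ ^ 2 := rfl
    _ ≤ nsq x.ofLp := h
    _ = ‖x‖ ^ 2 := (norm_sq_toLp x.ofLp).symm

lemma adjoint_op (Y : Matrix (Fin N) (Fin N) ℂ) :
    ContinuousLinearMap.adjoint (op Y) = op Yᴴ := by
  have h : Matrix.toEuclideanCLM (n := Fin N) (𝕜 := ℂ) (star Y)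
    = star (Matrix.toEuclideanCLM (n := Fin N) (𝕜 := ℂ) Y) := map_star _ Y
  exact h.symm

lemma op_mul (Y Z : Matrix (Fin N) (Fin N) ℂ) : op (Y * Z) = op Y * op Z :=
  map_mul (Matrix.toEuclideanCLM (n := Fin N) (𝕜 := ℂ)) Y Z

lemma op_one : op (1 : Matrix (Fin N) (Fin N) ℂ) = 1 :=
  map_one (Matrix.toEuclideanCLM (n := Fin N) (𝕜 := ℂ))

lemma op_sub (Y Z : Matrix (Fin N) (Fin N) ℂ) : op (Y - Z) = op Y - op Z :=
  map_sub (Matrix.toEuclideanCLM (n := Fin N) (𝕜 := ℂ)) Y Z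

lemma op_add (Y Z : Matrix (Fin N) (Fin N) ℂ) : op (Y + Z) = op Y + op Z :=
  map_add (Matrix.toEuclideanCLM (n := Fin N) (𝕜 := ℂ)) Y Z

lemma op_smul (c : ℂ) (Y : Matrix (Fin N) (Fin N) ℂ) : op (c • Y) = c • op Y :=
  map_smul (Matrix.toEuclideanCLM (n := Fin N) (𝕜 := ℂ)) c Y

/-- the perturbation matrix `(1 - Y Y*) U (1 - Y* Y)` -/
noncomputable def CU (U Y : Fin N → Fin N → ℂ) : Matrix (Fin N) (Fin N) ℂ :=
  (1 - Matrix.of Y * (Matrix.of Y)ᴴ) * Matrix.of U * (1 - (Matrix.of Y)ᴴ * Matrix.of Y)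

lemma op_CU (U Y : Fin N → Fin N → ℂ) :
    op (CU U Y) = pert (op (Matrix.of Y)) (op (Matrix.of U)) := by
  unfold CU pert
  rw [op_mul, op_mul, op_sub, op_sub, op_mul, op_mul, op_one, adjoint_op]

lemma mem_MB_of_hs_le {U : Fin N → Fin N → ℂ} (hU : hs U ≤ 1) : U ∈ MB N := by
  intro z
  calc ∑ i, ‖U i ⬝ᵥ z‖ ^ 2 ≤ ∑ i, nsq (U i) * nsq z :=
        Finset.sum_le_sum fun i _ => norm_dot_sq_le _ _
    _ = hs U * nsq z := by rw [← Finset.sum_mul]; rfl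
    _ ≤ 1 * nsq z := by
        have := nsq_nonneg z
        gcongr
    _ = nsq z := one_mul _

/-- the perturbation stays in the ball -/
theorem pert_bound {U Y : Fin N → Fin N → ℂ} (hU : hs U ≤ 1) (hY : Y ∈ MB N) (t : ℝ)
    (ht : |t| ≤ 1 / 2) (x z : Fin N → ℂ) (hx : nsq x ≤ 1) (hz : nsq z ≤ 1) :
    (star x ⬝ᵥ ((Matrix.of Y + (t : ℂ) • CU U Y) *ᵥ z)).re ≤ 1 := by
  have h := re_inner_add_pert_le (op (Matrix.of Y)) (op (Matrix.of U)) (op_norm_le hY)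
    (op_norm_le (mem_MB_of_hs_le hU)) t ht (WithLp.toLp 2 x) (WithLp.toLp 2 z)
    (by
      have h1 := norm_sq_toLp x
      have h2 := norm_nonneg (WithLp.toLp 2 x : EuclideanSpace ℂ (Fin N))
      nlinarith)
    (by
      have h1 := norm_sq_toLp z
      have h2 := norm_nonneg (WithLp.toLp 2 z : EuclideanSpace ℂ (Fin N))
      nlinarith)
  rw [← op_CU, ← op_smul, ← op_add, inner_op] at h
  exact h

lemma P_entry (Y : Fin N → Fin N → ℂ) (a b : Fin N) :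
    (1 - Matrix.of Y * (Matrix.of Y)ᴴ) a b = Pe Y a b := by
  unfold Pe
  rw [Matrix.sub_apply, Matrix.one_apply, Matrix.mul_apply]
  rfl

lemma Q_entry (Y : Fin N → Fin N → ℂ) (a b : Fin N) :
    (1 - (Matrix.of Y)ᴴ * Matrix.of Y) a b = Qe Y a b := by
  unfold Qe
  rw [Matrix.sub_apply, Matrix.one_apply, Matrix.mul_apply]
  rfl

lemma Psi_eq (U Y : Fin N → Fin N → ℂ) :
    Psi U Y = (∑ p : Fin N × Fin N, star (U p.1 p.2) * CU U Y p.1 p.2).re := by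
  unfold Psi
  congr 1
  refine Finset.sum_congr rfl fun p _ => ?_
  unfold CU
  rw [Matrix.mul_apply]
  simp only [Matrix.mul_apply]
  simp only [P_entry, Q_entry]
  rw [Fintype.sum_prod_type, Finset.sum_comm, Finset.mul_sum]
  refine Finset.sum_congr rfl fun c _ => ?_
  rw [Finset.sum_mul, Finset.mul_sum]
  refine Finset.sum_congr rfl fun b _ => ?_
  simp only [Matrix.of_apply]
  ring

lemma hs_conjTranspose (X : Matrix (Fin N) (Fin N) ℂ) : hs (fun a b => Xᴴ a b) = hs (fun a b => X a b) := by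
  unfold hs nsq
  rw [Finset.sum_comm]
  simp

lemma hs_mul_le {Y : Fin N → Fin N → ℂ} (hY : Y ∈ MB N) (X : Matrix (Fin N) (Fin N) ℂ) :
    hs (fun a b => ((1 - Matrix.of Y * (Matrix.of Y)ᴴ) * X) a b) ≤ hs (fun a b => X a b) := by
  have hcol : ∀ Z : Matrix (Fin N) (Fin N) ℂ, hs (fun a b => Z a b) = ∑ b, nsq (fun a => Z a b) := by
    intro Z
    unfold hs nsq
    rw [Finset.sum_comm]
  rw [hcol, hcol]
  refine Finset.sum_le_sum fun b _ => ?_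
  have h := norm_sub_sq_le (ContinuousLinearMap.adjoint (op (Matrix.of Y))) (by
    have h4 : ‖ContinuousLinearMap.adjoint (op (Matrix.of Y))‖ = ‖op (Matrix.of Y)‖ :=
      LinearIsometryEquiv.norm_map _ _
    rw [h4]; exact op_norm_le hY) (WithLp.toLp 2 (fun a => X a b))
  rw [ContinuousLinearMap.adjoint_adjoint, adjoint_op, op_apply, op_apply] at h
  rw [← WithLp.toLp_sub, norm_sq_toLp, norm_sq_toLp, norm_sq_toLp] at h
  have h2 : (fun a => ((1 - Matrix.of Y * (Matrix.of Y)ᴴ) * X) a b)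
      = (fun a => X a b) - Matrix.of Y *ᵥ ((Matrix.of Y)ᴴ *ᵥ (fun a => X a b)) := by
    ext a
    have h3 : ((1 - Matrix.of Y * (Matrix.of Y)ᴴ) * X) a b
      = ((1 - Matrix.of Y * (Matrix.of Y)ᴴ) *ᵥ (fun a => X a b)) a := rfl
    rw [h3, Matrix.sub_mulVec, Matrix.one_mulVec, Matrix.mulVec_mulVec]
  rw [h2]
  have h4 := nsq_nonneg ((Matrix.of Y)ᴴ *ᵥ fun a => X a b)
  refine h.trans ?_
  linarith

lemma conjTranspose_mem {Y : Fin N → Fin N → ℂ} (hY : Y ∈ MB N) :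
    (fun a b => star (Y b a)) ∈ MB N := by
  intro z
  have h1 : ‖op (Matrix.of Y)ᴴ‖ ≤ 1 := by
    rw [← adjoint_op]
    have h4 : ‖ContinuousLinearMap.adjoint (op (Matrix.of Y))‖ = ‖op (Matrix.of Y)‖ :=
      LinearIsometryEquiv.norm_map _ _
    rw [h4]; exact op_norm_le hY
  have h2 := (op (Matrix.of Y)ᴴ).le_opNorm (WithLp.toLp 2 z)
  have h3 : ‖op (Matrix.of Y)ᴴ (WithLp.toLp 2 z)‖ ^ 2
      ≤ ‖(WithLp.toLp 2 z : EuclideanSpace ℂ (Fin N))‖ ^ 2 := by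
    have h5 := norm_nonneg (WithLp.toLp 2 z : EuclideanSpace ℂ (Fin N))
    have h6 : ‖op (Matrix.of Y)ᴴ (WithLp.toLp 2 z)‖
        ≤ ‖(WithLp.toLp 2 z : EuclideanSpace ℂ (Fin N))‖ := by nlinarith
    gcongr
  rw [op_apply, norm_sq_toLp, norm_sq_toLp] at h3
  exact h3

lemma hs_mul_le' {Y : Fin N → Fin N → ℂ} (hY : Y ∈ MB N) (X : Matrix (Fin N) (Fin N) ℂ) :
    hs (fun a b => (X * (1 - (Matrix.of Y)ᴴ * Matrix.of Y)) a b) ≤ hs (fun a b => X a b) := by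
  rw [← hs_conjTranspose (X * (1 - (Matrix.of Y)ᴴ * Matrix.of Y)), ← hs_conjTranspose X]
  have h := hs_mul_le (conjTranspose_mem hY) Xᴴ
  have h2 : (X * (1 - (Matrix.of Y)ᴴ * Matrix.of Y))ᴴ
      = (1 - (Matrix.of (fun a b => star (Y b a))) * (Matrix.of (fun a b => star (Y b a)))ᴴ) * Xᴴ := by
    have h3 : Matrix.of (fun a b => star (Y b a)) = (Matrix.of Y)ᴴ := rfl
    rw [h3, conjTranspose_conjTranspose, conjTranspose_mul, conjTranspose_sub,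
      conjTranspose_one, conjTranspose_mul, conjTranspose_conjTranspose]
  rw [h2]
  exact h

lemma hs_CU_le {U Y : Fin N → Fin N → ℂ} (hY : Y ∈ MB N) : hs (fun a b => CU U Y a b) ≤ hs U := by
  unfold CU
  exact (hs_mul_le' hY _).trans (hs_mul_le hY _)

theorem Psi_le_one {U Y : Fin N → Fin N → ℂ} (hU : hs U = 1) (hY : Y ∈ MB N) : Psi U Y ≤ 1 := by
  have h1 := hs_CU_le (U := U) hY
  rw [hU, hs_eq_prod] at h1
  have h2 : ∑ p : Fin N × Fin N, ‖U p.1 p.2‖ ^ 2 = 1 := by rw [← hs_eq_prod, hU]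
  rw [Psi_eq]
  calc (∑ p : Fin N × Fin N, star (U p.1 p.2) * CU U Y p.1 p.2).re
      ≤ ‖∑ p : Fin N × Fin N, star (U p.1 p.2) * CU U Y p.1 p.2‖ := Complex.re_le_norm _
    _ ≤ ∑ p : Fin N × Fin N, ‖U p.1 p.2‖ * ‖CU U Y p.1 p.2‖ := by
        refine (norm_sum_le _ _).trans (le_of_eq ?_)
        refine Finset.sum_congr rfl fun p _ => ?_
        rw [norm_mul, norm_star]
    _ ≤ ∑ p : Fin N × Fin N, (‖U p.1 p.2‖ ^ 2 + ‖CU U Y p.1 p.2‖ ^ 2) / 2 := by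
        refine Finset.sum_le_sum fun p _ => ?_
        have := sq_nonneg (‖U p.1 p.2‖ - ‖CU U Y p.1 p.2‖)
        nlinarith
    _ = (∑ p : Fin N × Fin N, ‖U p.1 p.2‖ ^ 2 + ∑ p : Fin N × Fin N, ‖CU U Y p.1 p.2‖ ^ 2) / 2 := by
        rw [← Finset.sum_add_distrib, Finset.sum_div]
    _ ≤ 1 := by linarith

lemma Pe_smul (c : ℂ) (hc : ‖c‖ = 1) (Y : Fin N → Fin N → ℂ) (a b : Fin N) :
    Pe (c • Y) a b = Pe Y a b := by
  unfold Pe
  congr 1
  refine Finset.sum_congr rfl fun e _ => ?_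
  have h : c * star c = 1 := by
    have := Complex.mul_conj c
    rw [Complex.normSq_eq_norm_sq, hc] at this
    simpa using this
  simp only [Pi.smul_apply, smul_eq_mul, star_mul']
  linear_combination (Y a e * star (Y b e)) * h

lemma Qe_smul (c : ℂ) (hc : ‖c‖ = 1) (Y : Fin N → Fin N → ℂ) (a b : Fin N) :
    Qe (c • Y) a b = Qe Y a b := by
  unfold Qe
  congr 1
  refine Finset.sum_congr rfl fun e _ => ?_
  have h : c * star c = 1 := by
    have := Complex.mul_conj c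
    rw [Complex.normSq_eq_norm_sq, hc] at this
    simpa using this
  simp only [Pi.smul_apply, smul_eq_mul, star_mul']
  linear_combination (star (Y e a) * Y e b) * h

lemma Psi_smul (c : ℂ) (hc : ‖c‖ = 1) (U Y : Fin N → Fin N → ℂ) : Psi U (c • Y) = Psi U Y := by
  unfold Psi
  simp only [Pe_smul c hc, Qe_smul c hc]

lemma MB_smul (c : ℂ) (hc : ‖c‖ = 1) (Y : Fin N → Fin N → ℂ) : c • Y ∈ MB N ↔ Y ∈ MB N := by
  have h : ∀ z : Fin N → ℂ, ∑ i, ‖(c • Y) i ⬝ᵥ z‖ ^ 2 = ∑ i, ‖Y i ⬝ᵥ z‖ ^ 2 := by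
    intro z
    refine Finset.sum_congr rfl fun i _ => ?_
    rw [Pi.smul_apply, smul_dotProduct, norm_smul, hc, one_mul]
  simp only [MB, Set.mem_ofPred_eq, h]

end Pool.Agent.Lib.MP_26fc11_gt
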