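import Pool.Agent.Lib.MP_26fc11_gt.Ellipsoid

set_option autoImplicit false

namespace Pool.Agent.Lib.MP_26fc11_gt

open MeasureTheory Matrix
open scoped MatrixOrder ComplexOrder

instance instHaarV (m n : ℕ) : (volume : Measure (Fin m → Fin n → ℂ)).IsAddHaarMeasure := by
  apply MeasureTheory.Measure.pi.isAddHaarMeasure

instance instPosV (m n : ℕ) : (volume : Measure (Fin m → Fin n → ℂ)).IsOpenPosMeasure :=
  MeasureTheory.Measure.IsAddHaarMeasure.toIsOpenPosMeasure

/-- Operator norm unit ball: matrices `Y` with `|Y z|² ≤ |z|²` for all `z`. -/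
def MB (N : ℕ) : Set (Fin N → Fin N → ℂ) :=
  {Y | ∀ z : Fin N → ℂ, ∑ i, ‖Y i ⬝ᵥ z‖ ^ 2 ≤ nsq z}

/-- Squared Hilbert-Schmidt norm -/
noncomputable def hs {N : ℕ} (Y : Fin N → Fin N → ℂ) : ℝ := ∑ i, nsq (Y i)

lemma continuous_hs {N : ℕ} : Continuous (hs : (Fin N → Fin N → ℂ) → ℝ) := by
  unfold hs
  exact continuous_finsetSum _ fun i _ => continuous_nsq.comp (continuous_apply i)

lemma hs_nonneg {N : ℕ} (Y : Fin N → Fin N → ℂ) : 0 ≤ hs Y :=
  Finset.sum_nonneg fun i _ => nsq_nonneg _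

lemma isClosed_MB (N : ℕ) : IsClosed (MB N) := by
  have : MB N = ⋂ z : Fin N → ℂ, {Y | ∑ i, ‖Y i ⬝ᵥ z‖ ^ 2 ≤ nsq z} := by
    ext y; simp [MB]
  rw [this]
  refine isClosed_iInter fun z => isClosed_le ?_ continuous_const
  unfold dotProduct
  fun_prop

lemma col_le_one {N : ℕ} {Y : Fin N → Fin N → ℂ} (hY : Y ∈ MB N) (j : Fin N) :
    ∑ i, ‖Y i j‖ ^ 2 ≤ 1 := by
  have h := hY (Pi.single j 1)
  simp only [dotProduct_single, mul_one] at h
  have h2 : nsq (Pi.single j (1 : ℂ) : Fin N → ℂ) = 1 := by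
    unfold nsq
    rw [Finset.sum_eq_single j]
    · simp
    · intro b _ hb; simp [hb]
    · intro h; exact absurd (Finset.mem_univ j) h
  rw [h2] at h
  exact h

lemma hs_le {N : ℕ} {Y : Fin N → Fin N → ℂ} (hY : Y ∈ MB N) : hs Y ≤ N := by
  unfold hs nsq
  rw [Finset.sum_comm]
  calc ∑ j, ∑ i, ‖Y i j‖ ^ 2 ≤ ∑ j : Fin N, (1 : ℝ) := Finset.sum_le_sum fun j _ => col_le_one hY j
    _ = N := by simp

lemma isCompact_MB (N : ℕ) : IsCompact (MB N) := by
  refine (isCompact_closedBall (0 : Fin N → Fin N → ℂ) 1).of_isClosed_subset (isClosed_MB N) ?_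
  intro Y hY
  rw [mem_closedBall_zero_iff, pi_norm_le_iff_of_nonneg zero_le_one]
  intro i
  rw [pi_norm_le_iff_of_nonneg zero_le_one]
  intro j
  have h1 : ‖Y i j‖ ^ 2 ≤ ∑ i, ‖Y i j‖ ^ 2 :=
    Finset.single_le_sum (f := fun i => ‖Y i j‖ ^ 2) (fun i _ => by positivity) (Finset.mem_univ i)
  have h2 := col_le_one hY j
  have h3 := norm_nonneg (Y i j)
  nlinarith

lemma MB_mem_nhds (N : ℕ) : MB N ∈ nhds (0 : Fin N → Fin N → ℂ) := by
  have h : {Y : Fin N → Fin N → ℂ | hs Y < 1} ∈ nhds (0 : Fin N → Fin N → ℂ) := by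
    apply (isOpen_lt continuous_hs continuous_const).mem_nhds
    simp [hs, nsq]
  refine Filter.mem_of_superset h ?_
  intro Y hY z
  have hY' : hs Y < 1 := hY
  calc ∑ i, ‖Y i ⬝ᵥ z‖ ^ 2 ≤ ∑ i, nsq (Y i) * nsq z :=
        Finset.sum_le_sum fun i _ => norm_dot_sq_le _ _
    _ = hs Y * nsq z := by rw [← Finset.sum_mul]; rfl
    _ ≤ 1 * nsq z := by
        have := nsq_nonneg z
        gcongr
    _ = nsq z := one_mul _

lemma volume_MB_ne_zero (N : ℕ) : volume (MB N) ≠ 0 :=
  (Measure.measure_pos_of_mem_nhds volume (MB_mem_nhds N)).ne'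

lemma volume_MB_ne_top (N : ℕ) : volume (MB N) ≠ ⊤ := (isCompact_MB N).measure_lt_top.ne

section sym
variable {N : ℕ}

/-- flip the sign of a row -/
noncomputable def rowFlip (i : Fin N) : (Fin N → Fin N → ℂ) ≃L[ℝ] (Fin N → Fin N → ℂ) :=
  (LinearEquiv.ofInvolutive
    ({ toFun := fun Y a b => if a = i then - Y a b else Y a b
       map_add' := by
        intro x y; ext a b; by_cases h : a = i <;> simp [h]
        ring
       map_smul' := by
        intro c x; ext a b; by_cases h : a = i <;> simp [h] } :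
          (Fin N → Fin N → ℂ) →ₗ[ℝ] (Fin N → Fin N → ℂ))
    (by intro y; ext a b; by_cases h : a = i <;> simp [h])).toContinuousLinearEquiv

lemma rowFlip_apply (i : Fin N) (Y : Fin N → Fin N → ℂ) (a b : Fin N) :
    rowFlip i Y a b = if a = i then - Y a b else Y a b := rfl

/-- flip the sign of a column -/
noncomputable def colFlip (i : Fin N) : (Fin N → Fin N → ℂ) ≃L[ℝ] (Fin N → Fin N → ℂ) :=
  (LinearEquiv.ofInvolutive
    ({ toFun := fun Y a b => if b = i then - Y a b else Y a b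
       map_add' := by
        intro x y; ext a b; by_cases h : b = i <;> simp [h]
        ring
       map_smul' := by
        intro c x; ext a b; by_cases h : b = i <;> simp [h] } :
          (Fin N → Fin N → ℂ) →ₗ[ℝ] (Fin N → Fin N → ℂ))
    (by intro y; ext a b; by_cases h : b = i <;> simp [h])).toContinuousLinearEquiv

lemma colFlip_apply (i : Fin N) (Y : Fin N → Fin N → ℂ) (a b : Fin N) :
    colFlip i Y a b = if b = i then - Y a b else Y a b := rfl

/-- swap rows `i,i'` and columns `j,j'` -/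
noncomputable def rcSwap (i i' j j' : Fin N) : (Fin N → Fin N → ℂ) ≃L[ℝ] (Fin N → Fin N → ℂ) :=
  (LinearEquiv.ofInvolutive
    ({ toFun := fun Y a b => Y (Equiv.swap i i' a) (Equiv.swap j j' b)
       map_add' := by intro x y; rfl
       map_smul' := by intro c x; rfl } :
          (Fin N → Fin N → ℂ) →ₗ[ℝ] (Fin N → Fin N → ℂ))
    (by intro y; ext a b; simp)).toContinuousLinearEquiv

lemma rcSwap_apply (i i' j j' : Fin N) (Y : Fin N → Fin N → ℂ) (a b : Fin N) :
    rcSwap i i' j j' Y a b = Y (Equiv.swap i i' a) (Equiv.swap j j' b) := rfl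

lemma preimage_of_subset {V : Type*} [NormedAddCommGroup V] [NormedSpace ℝ V] (T : V ≃L[ℝ] V)
    (hinv : ∀ v, T (T v) = v) (L : Set V) (h : ∀ v ∈ L, T v ∈ L) : T ⁻¹' L = L := by
  ext v
  simp only [Set.mem_preimage]
  exact ⟨fun h1 => by rw [← hinv v]; exact h _ h1, h v⟩

lemma MB_rowFlip (i : Fin N) : rowFlip i ⁻¹' (MB N) = MB N := by
  apply preimage_of_subset
  · intro v; ext a b; rw [rowFlip_apply, rowFlip_apply]; by_cases h : a = i <;> simp [h]
  · intro Y hY z
    refine le_trans (le_of_eq ?_) (hY z)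
    refine Finset.sum_congr rfl fun a _ => ?_
    by_cases h : a = i
    · have : rowFlip i Y a = - Y a := by ext b; rw [rowFlip_apply, if_pos h]; rfl
      rw [this, neg_dotProduct, norm_neg]
    · have : rowFlip i Y a = Y a := by ext b; rw [rowFlip_apply, if_neg h]
      rw [this]

lemma MB_colFlip (i : Fin N) : colFlip i ⁻¹' (MB N) = MB N := by
  apply preimage_of_subset
  · intro v; ext a b; rw [colFlip_apply, colFlip_apply]; by_cases h : b = i <;> simp [h]
  · intro Y hY z
    rw [← nsq_flip1 i z]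
    refine le_trans (le_of_eq ?_) (hY (flip1 i z))
    refine Finset.sum_congr rfl fun a _ => ?_
    congr 2
    unfold dotProduct
    refine Finset.sum_congr rfl fun b _ => ?_
    rw [colFlip_apply, flip1_apply]
    split_ifs <;> ring

lemma MB_rcSwap (i i' j j' : Fin N) : rcSwap i i' j j' ⁻¹' (MB N) = MB N := by
  apply preimage_of_subset
  · intro v; ext a b; rw [rcSwap_apply, rcSwap_apply]; simp
  · intro Y hY z
    have h1 := hY (z ∘ Equiv.swap j j')
    have h2 : nsq (z ∘ Equiv.swap j j') = nsq z := by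
      unfold nsq
      exact Equiv.sum_comp (Equiv.swap j j') (fun i => ‖z i‖ ^ 2)
    rw [h2] at h1
    refine le_trans (le_of_eq ?_) h1
    rw [← Equiv.sum_comp (Equiv.swap i i')]
    refine Finset.sum_congr rfl fun a _ => ?_
    congr 2
    unfold dotProduct
    rw [← Equiv.sum_comp (Equiv.swap j j')]
    refine Finset.sum_congr rfl fun b _ => ?_
    rw [rcSwap_apply]
    simp

end sym

lemma slice_MB (k : ℕ) (Y' : Fin k → Fin (k + 1) → ℂ) :
    {y : Fin (k + 1) → ℂ | (Fin.cons y Y' : Fin (k + 1) → Fin (k + 1) → ℂ) ∈ MB (k + 1)}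
      = Ell (1 - (Matrix.of Y')ᴴ * (Matrix.of Y')) := by
  ext y
  have hq : ∀ z : Fin (k + 1) → ℂ,
      (star z ⬝ᵥ ((1 - (Matrix.of Y')ᴴ * (Matrix.of Y')) *ᵥ z)).re
        = nsq z - ∑ i, ‖Y' i ⬝ᵥ z‖ ^ 2 := by
    intro z
    have h1 : star z ⬝ᵥ (((Matrix.of Y')ᴴ * (Matrix.of Y')) *ᵥ z)
        = (((Matrix.of Y') *ᵥ z)) ⬝ᵥ star ((Matrix.of Y') *ᵥ z) := by
      rw [← Matrix.mulVec_mulVec, dotProduct_mulVec, vecMul_conjTranspose, star_star,
        dotProduct_comm]
    rw [Matrix.sub_mulVec, dotProduct_sub, Matrix.one_mulVec, h1, dotProduct_comm,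
      dot_star_self, dot_star_self, Complex.sub_re, Complex.ofReal_re, Complex.ofReal_re]
    rfl
  simp only [Set.mem_ofPred_eq, MB, Ell, hq]
  refine forall_congr' fun z => ?_
  rw [Fin.sum_univ_succ]
  simp only [Fin.cons_zero, Fin.cons_succ]
  constructor <;> intro h <;> linarith

lemma trace_slice (k : ℕ) (Y' : Fin k → Fin (k + 1) → ℂ) :
    (1 - (Matrix.of Y')ᴴ * (Matrix.of Y')).trace.re = ((k : ℝ) + 1) - ∑ i, nsq (Y' i) := by
  have h4 : ((Matrix.of Y')ᴴ * (Matrix.of Y')).trace = ((∑ i, nsq (Y' i) : ℝ) : ℂ) := by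
    simp only [Matrix.trace, Matrix.diag, Matrix.mul_apply, conjTranspose_apply, Matrix.of_apply]
    rw [Finset.sum_comm]
    push_cast
    refine Finset.sum_congr rfl fun i _ => ?_
    rw [← dot_star_self]
    unfold dotProduct
    refine Finset.sum_congr rfl fun j _ => ?_
    rw [mul_comm]; rfl
  rw [Matrix.trace_sub, h4, Matrix.trace_one]
  simp

lemma row_bound_lintegral (k : ℕ) :
    ((k + 1 : ℕ) : ENNReal) * ∫⁻ Y in MB (k + 1), ENNReal.ofReal (nsq (Y 0))
      ≤ ∫⁻ Y in MB (k + 1), ENNReal.ofReal (((k : ℝ) + 1) - ∑ i : Fin k, nsq (Y i.succ)) := by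
  have hmp := (volume_preserving_piFinSuccAbove
    (fun _ : Fin (k + 1) => (Fin (k + 1) → ℂ)) 0).symm
  have hcons : ∀ p : (Fin (k + 1) → ℂ) × (Fin k → Fin (k + 1) → ℂ),
      (MeasurableEquiv.piFinSuccAbove (fun _ : Fin (k + 1) => (Fin (k + 1) → ℂ)) 0).symm p
        = Fin.cons p.1 p.2 := by
    intro p
    exact Fin.insertNth_zero' p.1 p.2
  have hMBm := (isClosed_MB (k + 1)).measurableSet
  have key : ∀ G : (Fin (k + 1) → Fin (k + 1) → ℂ) → ENNReal, Measurable G →
      ∫⁻ Y in MB (k + 1), G Y = ∫⁻ Y' : Fin k → Fin (k + 1) → ℂ,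
        ∫⁻ y in Ell (1 - (Matrix.of Y')ᴴ * (Matrix.of Y')), G (Fin.cons y Y') := by
    intro G hG
    have hG2 : Measurable ((MB (k + 1)).indicator G) := hG.indicator hMBm
    rw [← lintegral_indicator hMBm, ← hmp.lintegral_comp hG2]
    have hG3 : Measurable fun a => (MB (k + 1)).indicator G
        ((MeasurableEquiv.piFinSuccAbove (fun _ : Fin (k + 1) => (Fin (k + 1) → ℂ)) 0).symm a) :=
      hG2.comp hmp.measurable
    rw [Measure.volume_eq_prod, lintegral_prod_symm _ hG3.aemeasurable]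
    refine lintegral_congr fun Y' => ?_
    rw [← slice_MB, ← lintegral_indicator]
    · refine lintegral_congr fun y => ?_
      rw [hcons]
      rfl
    · rw [slice_MB]; exact (isClosed_Ell _).measurableSet
  rw [key (fun Y => ENNReal.ofReal (nsq (Y 0))) (ENNReal.measurable_ofReal.comp
    (continuous_nsq.measurable.comp (measurable_pi_apply 0)))]
  rw [key (fun Y => ENNReal.ofReal (((k : ℝ) + 1) - ∑ i : Fin k, nsq (Y i.succ))) (by
    apply ENNReal.measurable_ofReal.comp
    apply Measurable.const_sub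
    refine Finset.measurable_sum _ fun i _ => ?_
    exact continuous_nsq.measurable.comp (measurable_pi_apply _))]
  rw [← lintegral_const_mul']
  · refine lintegral_mono fun Y' => ?_
    have h := ellipsoid_bound (1 - (Matrix.of Y')ᴴ * (Matrix.of Y'))
      (Matrix.isHermitian_one.sub (Matrix.isHermitian_conjTranspose_mul_self _))
    rw [Fintype.card_fin] at h
    simp only [Fin.cons_zero, Fin.cons_succ]
    refine h.trans (le_of_eq ?_)
    rw [trace_slice]
    simp
  · simp

lemma integral_nsq_row {k : ℕ} (i : Fin (k + 1)) :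
    ∫ Y in MB (k + 1), nsq (Y i) = ∫ Y in MB (k + 1), nsq (Y 0) := by
  rw [← setIntegral_comp_symm volume (rcSwap i 0 0 0) (MB (k + 1)) (volume_MB_ne_zero _)
    (volume_MB_ne_top _) (MB_rcSwap _ _ _ _) (fun Y => nsq (Y 0))]
  refine integral_congr_ae (Filter.Eventually.of_forall fun Y => ?_)
  unfold nsq
  simp only [rcSwap_apply]
  simp

lemma integrableOn_MB {N : ℕ} {E : Type*} [NormedAddCommGroup E] (f : (Fin N → Fin N → ℂ) → E)
    (hf : Continuous f) : IntegrableOn f (MB N) volume :=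
  hf.continuousOn.integrableOn_compact (isCompact_MB N)

/-- The normalised second moment of the operator norm ball is at most about one half. -/
theorem integral_hs_le (k : ℕ) :
    (2 * (k : ℝ) + 1) * ∫ Y in MB (k + 1), hs Y
      ≤ ((k : ℝ) + 1) ^ 2 * (volume (MB (k + 1))).toReal := by
  have h := row_bound_lintegral k
  have hc0 : Continuous fun Y : Fin (k + 1) → Fin (k + 1) → ℂ => nsq (Y 0) :=
    continuous_nsq.comp (continuous_apply 0)
  have hc1 : Continuous fun Y : Fin (k + 1) → Fin (k + 1) → ℂ =>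
      ((k : ℝ) + 1) - ∑ i : Fin k, nsq (Y i.succ) := by
    refine continuous_const.sub (continuous_finsetSum _ fun i _ => ?_)
    exact continuous_nsq.comp (continuous_apply _)
  rw [← ofReal_integral_eq_lintegral_ofReal (integrableOn_MB _ hc0)
    (Filter.Eventually.of_forall fun Y => nsq_nonneg _)] at h
  rw [← ofReal_integral_eq_lintegral_ofReal (integrableOn_MB _ hc1)
    (by
      refine (ae_restrict_iff' (isClosed_MB _).measurableSet).mpr
        (Filter.Eventually.of_forall fun Y hY => ?_)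
      have h1 := hs_le hY
      unfold hs at h1
      rw [Fin.sum_univ_succ] at h1
      have h2 := nsq_nonneg (Y 0)
      push_cast at h1
      show (0 : ℝ) ≤ ((k : ℝ) + 1) - ∑ i : Fin k, nsq (Y i.succ)
      linarith)] at h
  rw [← ENNReal.ofReal_natCast, ← ENNReal.ofReal_mul (by positivity)] at h
  have hb0 : 0 ≤ ∫ Y in MB (k + 1), nsq (Y 0) := integral_nonneg fun Y => nsq_nonneg _
  have h2 : (((k + 1 : ℕ)) : ℝ) * ∫ Y in MB (k + 1), nsq (Y 0)
      ≤ ∫ Y in MB (k + 1), (((k : ℝ) + 1) - ∑ i : Fin k, nsq (Y i.succ)) := by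
    rcases ENNReal.ofReal_le_ofReal_iff'.mp h with h3 | h3
    · exact h3
    · refine h3.trans ?_
      refine setIntegral_nonneg (isClosed_MB _).measurableSet fun Y hY => ?_
      have h1 := hs_le hY
      unfold hs at h1
      rw [Fin.sum_univ_succ] at h1
      have h2 := nsq_nonneg (Y 0)
      push_cast at h1
      linarith
  have hci : ∀ i, IntegrableOn (fun Y : Fin (k + 1) → Fin (k + 1) → ℂ => nsq (Y i))
      (MB (k + 1)) volume := fun i => integrableOn_MB _ (continuous_nsq.comp (continuous_apply i))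
  have h4 : ∫ Y in MB (k + 1), hs Y
      = ((k : ℝ) + 1) * ∫ Y in MB (k + 1), nsq (Y 0) := by
    unfold hs
    rw [integral_finsetSum _ (fun i _ => hci i)]
    simp_rw [integral_nsq_row]
    simp
  have h5 : ∫ Y in MB (k + 1), (((k : ℝ) + 1) - ∑ i : Fin k, nsq (Y i.succ))
      = ((k : ℝ) + 1) * (volume (MB (k + 1))).toReal - k * ∫ Y in MB (k + 1), nsq (Y 0) := by
    have e1 : IntegrableOn (fun _ : Fin (k + 1) → Fin (k + 1) → ℂ => (k : ℝ) + 1)
      (MB (k + 1)) volume := integrableOn_MB _ continuous_const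
    have e2 : IntegrableOn (fun Y : Fin (k + 1) → Fin (k + 1) → ℂ => ∑ i : Fin k, nsq (Y i.succ))
      (MB (k + 1)) volume := integrable_finsetSum _ (fun i _ => hci (Fin.succ i))
    rw [integral_sub e1 e2]
    rw [integral_finsetSum _ (fun i _ => hci (Fin.succ i))]
    simp_rw [integral_nsq_row]
    simp [Measure.real, mul_comm]
  rw [h5] at h2
  rw [h4]
  push_cast at h2
  have hk : (0 : ℝ) ≤ k := Nat.cast_nonneg k
  nlinarith

end Pool.Agent.Lib.MP_26fc11_gt
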