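import Pool.Agent.Lib.MP_26fc11_gt.MBall

set_option autoImplicit false

namespace Pool.Agent.Lib.MP_26fc11_gt

open MeasureTheory Matrix
open scoped MatrixOrder ComplexOrder

variable {N : ℕ}

lemma ortho (f : (Fin N × Fin N) → (Fin N × Fin N) → (Fin N → Fin N → ℂ) → ℂ)
    (hc : ∀ p q, Continuous (f p q)) (h0 : ∀ p q, p ≠ q → ∫ Y in MB N, f p q Y = 0)
    (h1 : ∀ p q, ∫ Y in MB N, f p p Y = ∫ Y in MB N, f q q Y) (U : Fin N × Fin N → ℂ) :
    (N : ℂ) ^ 2 * ∫ Y in MB N, ∑ p, ∑ q, star (U p) * U q * f p q Y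
      = ((∑ p, ‖U p‖ ^ 2 : ℝ) : ℂ) * ∫ Y in MB N, ∑ p, f p p Y := by
  have hint : ∀ p q, IntegrableOn (fun Y => star (U p) * U q * f p q Y) (MB N) volume :=
    fun p q => integrableOn_MB _ (continuous_const.mul (hc p q))
  have hint2 : ∀ p q, IntegrableOn (fun Y => f p q Y) (MB N) volume :=
    fun p q => integrableOn_MB _ (hc p q)
  rcases isEmpty_or_nonempty (Fin N × Fin N) with hE | ⟨⟨p₀⟩⟩
  · simp
  have e1 : ∫ Y in MB N, ∑ p, ∑ q, star (U p) * U q * f p q Y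
      = ((∑ p, ‖U p‖ ^ 2 : ℝ) : ℂ) * ∫ Y in MB N, f p₀ p₀ Y := by
    rw [integral_finsetSum _ (fun p _ => integrable_finsetSum _ (fun q _ => hint p q))]
    push_cast
    rw [Finset.sum_mul]
    refine Finset.sum_congr rfl fun p _ => ?_
    rw [integral_finsetSum _ (fun q _ => hint p q)]
    rw [Finset.sum_eq_single p]
    · rw [integral_const_mul, h1 p p₀]
      congr 1
      rw [← Complex.ofReal_pow, ← Complex.normSq_eq_norm_sq, mul_comm]
      exact Complex.mul_conj _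
    · intro q _ hne
      rw [integral_const_mul, h0 p q hne.symm, mul_zero]
    · intro h; exact absurd (Finset.mem_univ p) h
  have e2 : ∫ Y in MB N, ∑ p, f p p Y = (N : ℂ) ^ 2 * ∫ Y in MB N, f p₀ p₀ Y := by
    rw [integral_finsetSum _ (fun p _ => hint2 p p)]
    simp_rw [h1 _ p₀]
    simp [pow_two]
  rw [e1, e2]
  ring

lemma integral_eq_zero_of_neg (T : (Fin N → Fin N → ℂ) ≃L[ℝ] (Fin N → Fin N → ℂ))
    (hT : T ⁻¹' (MB N) = MB N) (f : (Fin N → Fin N → ℂ) → ℂ) (hf : ∀ Y, f (T Y) = - f Y) :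
    ∫ Y in MB N, f Y = 0 := by
  have h := setIntegral_comp_symm volume T (MB N) (volume_MB_ne_zero N) (volume_MB_ne_top N) hT f
  simp_rw [hf] at h
  rw [integral_neg] at h
  have h3 : (2 : ℂ) * ∫ Y in MB N, f Y = 0 := by linear_combination -h
  simpa using h3

/-- entries of `1 - Y Y*` -/
noncomputable def Pe (Y : Fin N → Fin N → ℂ) (a b : Fin N) : ℂ :=
  (if a = b then 1 else 0) - ∑ e, Y a e * star (Y b e)

/-- entries of `1 - Y* Y` -/
noncomputable def Qe (Y : Fin N → Fin N → ℂ) (c d : Fin N) : ℂ :=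
  (if c = d then 1 else 0) - ∑ e, star (Y e c) * Y e d

lemma continuous_Pe (a b : Fin N) : Continuous fun Y : Fin N → Fin N → ℂ => Pe Y a b := by
  unfold Pe; fun_prop

lemma continuous_Qe (a b : Fin N) : Continuous fun Y : Fin N → Fin N → ℂ => Qe Y a b := by
  unfold Qe; fun_prop

lemma Pe_rowFlip (Y : Fin N → Fin N → ℂ) (a b : Fin N) (h : a ≠ b) :
    Pe (rowFlip a Y) a b = - Pe Y a b := by
  unfold Pe
  simp only [rowFlip_apply, if_pos rfl, if_neg h, if_neg h.symm, if_true]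
  simp

lemma Qe_rowFlip (Y : Fin N → Fin N → ℂ) (a c d : Fin N) :
    Qe (rowFlip a Y) c d = Qe Y c d := by
  unfold Qe
  simp only [rowFlip_apply]
  congr 1
  refine Finset.sum_congr rfl fun e _ => ?_
  split_ifs <;> simp

lemma Qe_colFlip (Y : Fin N → Fin N → ℂ) (a b : Fin N) (h : a ≠ b) :
    Qe (colFlip a Y) a b = - Qe Y a b := by
  unfold Qe
  simp only [colFlip_apply, if_pos rfl, if_neg h, if_neg h.symm, if_true]
  simp

lemma Pe_colFlip (Y : Fin N → Fin N → ℂ) (a c d : Fin N) :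
    Pe (colFlip a Y) c d = Pe Y c d := by
  unfold Pe
  simp only [colFlip_apply]
  congr 1
  refine Finset.sum_congr rfl fun e _ => ?_
  split_ifs <;> simp

lemma Pe_rcSwap (Y : Fin N → Fin N → ℂ) (i i' j j' a b : Fin N) :
    Pe (rcSwap i i' j j' Y) a b = Pe Y (Equiv.swap i i' a) (Equiv.swap i i' b) := by
  unfold Pe
  simp only [rcSwap_apply, EmbeddingLike.apply_eq_iff_eq]
  congr 1
  exact Equiv.sum_comp (Equiv.swap j j') (fun e => Y (Equiv.swap i i' a) e *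
    star (Y (Equiv.swap i i' b) e))

lemma Qe_rcSwap (Y : Fin N → Fin N → ℂ) (i i' j j' a b : Fin N) :
    Qe (rcSwap i i' j j' Y) a b = Qe Y (Equiv.swap j j' a) (Equiv.swap j j' b) := by
  unfold Qe
  simp only [rcSwap_apply, EmbeddingLike.apply_eq_iff_eq]
  congr 1
  exact Equiv.sum_comp (Equiv.swap i i') (fun e => star (Y e (Equiv.swap j j' a)) *
    Y e (Equiv.swap j j' b))

lemma hs_eq_prod (U : Fin N → Fin N → ℂ) : hs U = ∑ p : Fin N × Fin N, ‖U p.1 p.2‖ ^ 2 := by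
  unfold hs nsq
  rw [Fintype.sum_prod_type]

/-- the complex functional `Y ↦ ⟨U, Y⟩` -/
noncomputable def wU (U Y : Fin N → Fin N → ℂ) : ℂ :=
  ∑ p : Fin N × Fin N, star (U p.1 p.2) * Y p.1 p.2

lemma normSq_wU (U Y : Fin N → Fin N → ℂ) :
    ((‖wU U Y‖ ^ 2 : ℝ) : ℂ) = ∑ p : Fin N × Fin N, ∑ q : Fin N × Fin N,
      star (U p.1 p.2) * U q.1 q.2 * (Y p.1 p.2 * star (Y q.1 q.2)) := by
  rw [← Complex.normSq_eq_norm_sq]
  rw [← Complex.mul_conj]
  unfold wU
  rw [map_sum, Finset.sum_mul_sum]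
  refine Finset.sum_congr rfl fun p _ => Finset.sum_congr rfl fun q _ => ?_
  simp
  ring

/-- second moment of the functional `w` -/
theorem integral_wU (U : Fin N → Fin N → ℂ) :
    (N : ℝ) ^ 2 * ∫ Y in MB N, ‖wU U Y‖ ^ 2 = hs U * ∫ Y in MB N, hs Y := by
  have h := ortho (N := N) (fun p q Y => Y p.1 p.2 * star (Y q.1 q.2))
    (fun p q => by fun_prop) (by
      intro p q hpq
      by_cases h1 : p.1 = q.1
      · have h2 : p.2 ≠ q.2 := fun h2 => hpq (Prod.ext h1 h2)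
        refine integral_eq_zero_of_neg (colFlip p.2) (MB_colFlip _) _ fun Y => ?_
        rw [colFlip_apply, colFlip_apply, if_pos rfl, if_neg h2.symm]
        ring
      · refine integral_eq_zero_of_neg (rowFlip p.1) (MB_rowFlip _) _ fun Y => ?_
        rw [rowFlip_apply, rowFlip_apply, if_pos rfl, if_neg (fun h => h1 h.symm)]
        ring) (by
      intro p q
      rw [← setIntegral_comp_symm volume (rcSwap p.1 q.1 p.2 q.2) (MB N) (volume_MB_ne_zero _)
        (volume_MB_ne_top _) (MB_rcSwap _ _ _ _)]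
      refine integral_congr_ae (Filter.Eventually.of_forall fun Y => ?_)
      simp only [rcSwap_apply, Equiv.swap_apply_left]) (fun p => U p.1 p.2)
  simp_rw [← normSq_wU] at h
  have h2 : ∀ Y : Fin N → Fin N → ℂ, ∑ p : Fin N × Fin N, Y p.1 p.2 * star (Y p.1 p.2)
      = ((hs Y : ℝ) : ℂ) := by
    intro Y
    rw [hs_eq_prod]
    push_cast
    refine Finset.sum_congr rfl fun p _ => ?_
    rw [← Complex.ofReal_pow, ← Complex.normSq_eq_norm_sq]
    exact Complex.mul_conj _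
  simp_rw [h2] at h
  rw [← hs_eq_prod, integral_complex_ofReal, integral_complex_ofReal] at h
  exact_mod_cast h

/-- `Ψ_U(Y) = Re ⟨(1 - Y Y*) U (1 - Y* Y), U⟩` -/
noncomputable def Psi (U Y : Fin N → Fin N → ℂ) : ℝ :=
  (∑ p : Fin N × Fin N, ∑ q : Fin N × Fin N,
    star (U p.1 p.2) * U q.1 q.2 * (Pe Y p.1 q.1 * Qe Y q.2 p.2)).re

lemma sum_Pe (Y : Fin N → Fin N → ℂ) : ∑ a, Pe Y a a = (((N : ℝ) - hs Y : ℝ) : ℂ) := by
  unfold Pe hs
  rw [Finset.sum_sub_distrib]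
  push_cast
  congr 1
  · simp
  · refine Finset.sum_congr rfl fun a _ => ?_
    rw [← dot_star_self]
    rfl

lemma sum_Qe (Y : Fin N → Fin N → ℂ) : ∑ a, Qe Y a a = (((N : ℝ) - hs Y : ℝ) : ℂ) := by
  rw [← sum_Pe]
  unfold Pe Qe
  rw [Finset.sum_sub_distrib, Finset.sum_sub_distrib]
  congr 1
  rw [Finset.sum_comm]
  refine Finset.sum_congr rfl fun a _ => Finset.sum_congr rfl fun b _ => ?_
  ring

theorem integral_Psi (U : Fin N → Fin N → ℂ) :
    (N : ℝ) ^ 2 * ∫ Y in MB N, Psi U Y = hs U * ∫ Y in MB N, ((N : ℝ) - hs Y) ^ 2 := by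
  have h := ortho (N := N) (fun p q Y => Pe Y p.1 q.1 * Qe Y q.2 p.2)
    (fun p q => (continuous_Pe _ _).mul (continuous_Qe _ _)) (by
      intro p q hpq
      by_cases h1 : p.1 = q.1
      · have h2 : p.2 ≠ q.2 := fun h2 => hpq (Prod.ext h1 h2)
        refine integral_eq_zero_of_neg (colFlip q.2) (MB_colFlip _) _ fun Y => ?_
        rw [Pe_colFlip, Qe_colFlip _ _ _ h2.symm]
        ring
      · refine integral_eq_zero_of_neg (rowFlip p.1) (MB_rowFlip _) _ fun Y => ?_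
        rw [Qe_rowFlip, Pe_rowFlip _ _ _ h1]
        ring) (by
      intro p q
      rw [← setIntegral_comp_symm volume (rcSwap p.1 q.1 p.2 q.2) (MB N) (volume_MB_ne_zero _)
        (volume_MB_ne_top _) (MB_rcSwap _ _ _ _)]
      refine integral_congr_ae (Filter.Eventually.of_forall fun Y => ?_)
      simp only [Pe_rcSwap, Qe_rcSwap, Equiv.swap_apply_left]) (fun p => U p.1 p.2)
  have h2 : ∀ Y : Fin N → Fin N → ℂ, ∑ p : Fin N × Fin N, Pe Y p.1 p.1 * Qe Y p.2 p.2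
      = ((((N : ℝ) - hs Y) ^ 2 : ℝ) : ℂ) := by
    intro Y
    rw [Fintype.sum_prod_type]
    simp only
    rw [← Finset.sum_mul_sum, sum_Pe, sum_Qe]
    push_cast; ring
  simp_rw [h2] at h
  rw [← hs_eq_prod, integral_complex_ofReal] at h
  have h3 := congrArg Complex.re h
  have hint : IntegrableOn (fun Y : Fin N → Fin N → ℂ => ∑ p : Fin N × Fin N, ∑ q : Fin N × Fin N,
    star (U p.1 p.2) * U q.1 q.2 * (Pe Y p.1 q.1 * Qe Y q.2 p.2)) (MB N) volume := by
    apply integrableOn_MB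
    refine continuous_finsetSum _ fun p _ => continuous_finsetSum _ fun q _ => ?_
    exact continuous_const.mul ((continuous_Pe _ _).mul (continuous_Qe _ _))
  have h4 : (∫ Y in MB N, ∑ p : Fin N × Fin N, ∑ q : Fin N × Fin N,
    star (U p.1 p.2) * U q.1 q.2 * (Pe Y p.1 q.1 * Qe Y q.2 p.2)).re = ∫ Y in MB N, Psi U Y :=
    (integral_re hint).symm
  rw [← h4]
  have h5 : ((N : ℂ) ^ 2 * ∫ Y in MB N, ∑ p : Fin N × Fin N, ∑ q : Fin N × Fin N,
    star (U p.1 p.2) * U q.1 q.2 * (Pe Y p.1 q.1 * Qe Y q.2 p.2)).re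
    = (N : ℝ) ^ 2 * (∫ Y in MB N, ∑ p : Fin N × Fin N, ∑ q : Fin N × Fin N,
    star (U p.1 p.2) * U q.1 q.2 * (Pe Y p.1 q.1 * Qe Y q.2 p.2)).re := by
    rw [show ((N : ℂ) ^ 2) = (((N : ℝ) ^ 2 : ℝ) : ℂ) by push_cast; rfl, Complex.re_ofReal_mul]
  rw [← h5, h3, ← Complex.ofReal_mul, Complex.ofReal_re]

end Pool.Agent.Lib.MP_26fc11_gt
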