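import Pool.Agent.Lib.MP_26fc11_gt.Link

set_option autoImplicit false

namespace Pool.Agent.Lib.MP_26fc11_gt

open MeasureTheory Matrix
open scoped MatrixOrder ComplexOrder

variable {N : ℕ}

/-- `⟨U, ·⟩` as a linear map -/
noncomputable def wL (U : Fin N → Fin N → ℂ) : (Fin N → Fin N → ℂ) →ₗ[ℂ] ℂ where
  toFun := wU U
  map_add' := by
    intro x y
    unfold wU
    rw [← Finset.sum_add_distrib]
    refine Finset.sum_congr rfl fun p _ => ?_
    simp only [Pi.add_apply]; ring
  map_smul' := by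
    intro c x
    unfold wU
    rw [RingHom.id_apply, smul_eq_mul, Finset.mul_sum]
    refine Finset.sum_congr rfl fun p _ => ?_
    simp only [Pi.smul_apply, smul_eq_mul]; ring

lemma wL_apply (U Y : Fin N → Fin N → ℂ) : wL U Y = wU U Y := rfl

lemma wU_self (U : Fin N → Fin N → ℂ) : wU U U = ((hs U : ℝ) : ℂ) := by
  unfold wU
  rw [hs_eq_prod]
  push_cast
  refine Finset.sum_congr rfl fun p _ => ?_
  rw [← Complex.ofReal_pow, ← Complex.normSq_eq_norm_sq, mul_comm]
  exact Complex.mul_conj _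

lemma continuous_wU (U : Fin N → Fin N → ℂ) : Continuous (wU U) := by
  unfold wU; fun_prop

lemma continuous_Psi (U : Fin N → Fin N → ℂ) : Continuous (Psi U) := by
  unfold Psi
  refine Complex.continuous_re.comp ?_
  refine continuous_finsetSum _ fun p _ => continuous_finsetSum _ fun q _ => ?_
  exact continuous_const.mul ((continuous_Pe _ _).mul (continuous_Qe _ _))

/-- density used in the circle lemma -/
noncomputable def FU (U : Fin N → Fin N → ℂ) : (Fin N → Fin N → ℂ) → ENNReal :=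
  (MB N).indicator fun Y => ENNReal.ofReal (Psi U Y)

/-- the region inside the polar of the Steiner symmetral -/
def SU (U : Fin N → Fin N → ℂ) : Set (Fin N → Fin N → ℂ) :=
  {v | ENNReal.ofReal (2 * |(wU U v).re|) < FU U (v - ((wU U v).re : ℂ) • U)}

lemma measurable_FU (U : Fin N → Fin N → ℂ) : Measurable (FU U) :=
  (ENNReal.measurable_ofReal.comp (continuous_Psi U).measurable).indicator
    (isClosed_MB N).measurableSet

lemma ofReal_integral_le {α : Type*} [MeasurableSpace α] {μ : Measure α} (g : α → ℝ)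
    (hg : Integrable g μ) : ENNReal.ofReal (∫ x, g x ∂μ) ≤ ∫⁻ x, ENNReal.ofReal (g x) ∂μ := by
  have h1 : ∫ x, g x ∂μ ≤ ∫ x, max (g x) 0 ∂μ :=
    integral_mono hg hg.pos_part fun x => le_max_left _ _
  have h2 : ∫⁻ x, ENNReal.ofReal (g x) ∂μ = ∫⁻ x, ENNReal.ofReal (max (g x) 0) ∂μ := by
    refine lintegral_congr fun x => ?_
    rcases le_total (g x) 0 with h | h
    · rw [max_eq_right h, ENNReal.ofReal_of_nonpos h, ENNReal.ofReal_zero]
    · rw [max_eq_left h]
  rw [h2, ← ofReal_integral_eq_lintegral_ofReal hg.pos_part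
    (Filter.Eventually.of_forall fun x => le_max_right _ _)]
  exact ENNReal.ofReal_le_ofReal h1

theorem vol_SU (k : ℕ) (hk : 1 ≤ k) (U : Fin (k + 1) → Fin (k + 1) → ℂ) (hU : hs U = 1)
    (τ : ℝ) (hτ : 0 < τ) (hNτ : 24 ≤ ((k : ℝ) + 1) * τ ^ 2) :
    ENNReal.ofReal ((volume (MB (k + 1))).toReal / 24)
      ≤ ENNReal.ofReal (Real.pi * τ) * volume (SU U) := by
  have hcirc := circle_general volume (wL U) U (by rw [wL_apply, wU_self, hU]; simp) (FU U)
    (measurable_FU U) (by
      intro c hc v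
      unfold FU
      by_cases hv : v ∈ MB (k + 1)
      · rw [Set.indicator_of_mem hv, Set.indicator_of_mem ((MB_smul c hc v).mpr hv), Psi_smul c hc]
      · rw [Set.indicator_of_notMem hv, Set.indicator_of_notMem
          (fun h => hv ((MB_smul c hc v).mp h))]) τ hτ
  refine le_trans ?_ hcirc
  set A : ℝ := (volume (MB (k + 1))).toReal with hA
  have hA0 : 0 ≤ A := ENNReal.toReal_nonneg
  have hN : ((k + 1 : ℕ) : ℝ) = (k : ℝ) + 1 := by push_cast; ring
  have hk1 : (1 : ℝ) ≤ k := by exact_mod_cast hk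
  have hMBm := (isClosed_MB (k + 1)).measurableSet
  -- second moment
  have hH := integral_hs_le k
  set H : ℝ := ∫ Y in MB (k + 1), hs Y with hHdef
  -- first estimate: ∫ Ψ ≥ A / 12
  have hPsi : A / 12 ≤ ∫ Y in MB (k + 1), Psi U Y := by
    have h1 := integral_Psi (N := k + 1) U
    rw [hU, one_mul, hN] at h1
    have h2 : ∫ Y in MB (k + 1), (3 / 4 * ((k : ℝ) + 1) ^ 2 - ((k : ℝ) + 1) * hs Y)
        ≤ ∫ Y in MB (k + 1), (((k : ℝ) + 1) - hs Y) ^ 2 := by
      apply integral_mono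
      · exact integrableOn_MB _ (continuous_const.sub (continuous_const.mul continuous_hs))
      · exact integrableOn_MB _ ((continuous_const.sub continuous_hs).pow 2)
      · intro Y
        show 3 / 4 * ((k : ℝ) + 1) ^ 2 - ((k : ℝ) + 1) * hs Y ≤ (((k : ℝ) + 1) - hs Y) ^ 2
        nlinarith [sq_nonneg (hs Y - ((k : ℝ) + 1) / 2)]
    have h3 : ∫ Y in MB (k + 1), (3 / 4 * ((k : ℝ) + 1) ^ 2 - ((k : ℝ) + 1) * hs Y)
        = 3 / 4 * ((k : ℝ) + 1) ^ 2 * A - ((k : ℝ) + 1) * H := by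
      have e1 : IntegrableOn (fun _ : Fin (k + 1) → Fin (k + 1) → ℂ => 3 / 4 * ((k : ℝ) + 1) ^ 2)
        (MB (k + 1)) volume := integrableOn_MB _ continuous_const
      have e2 : IntegrableOn (fun Y : Fin (k + 1) → Fin (k + 1) → ℂ => ((k : ℝ) + 1) * hs Y)
        (MB (k + 1)) volume := integrableOn_MB _ (continuous_const.mul continuous_hs)
      have e3 : ∫ _Y in MB (k + 1), (3 / 4 * ((k : ℝ) + 1) ^ 2) = 3 / 4 * ((k : ℝ) + 1) ^ 2 * A := by
        rw [setIntegral_const, smul_eq_mul, mul_comm]; rfl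
      have e4 : ∫ Y in MB (k + 1), (((k : ℝ) + 1) * hs Y) = ((k : ℝ) + 1) * H :=
        integral_const_mul _ _
      rw [integral_sub e1 e2, e3, e4]
    rw [h3, ← h1] at h2
    set J : ℝ := ∫ Y in MB (k + 1), Psi U Y with hJ
    -- (k+1)^2 J ≥ 3/4 (k+1)^2 A - (k+1) H,  (2k+1) H ≤ (k+1)^2 A
    have h4 : ((k : ℝ) + 1) * J ≥ 3 / 4 * ((k : ℝ) + 1) * A - H := by
      have : ((k : ℝ) + 1) * (((k : ℝ) + 1) * J) ≥ ((k : ℝ) + 1) * (3 / 4 * ((k : ℝ) + 1) * A - H) := by
        nlinarith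
      exact le_of_mul_le_mul_left this (by positivity)
    have h5 : H ≤ 2 / 3 * ((k : ℝ) + 1) * A := by
      have h6 : ((k : ℝ) + 1) ^ 2 * A ≤ (2 * (k : ℝ) + 1) * (2 / 3 * ((k : ℝ) + 1) * A) := by
        have : 0 ≤ ((k : ℝ) + 1) * A * ((k : ℝ) - 1) := by
          have : 0 ≤ (k : ℝ) - 1 := by linarith
          positivity
        nlinarith
      have h7 : (2 * (k : ℝ) + 1) * H ≤ (2 * (k : ℝ) + 1) * (2 / 3 * ((k : ℝ) + 1) * A) :=
        hH.trans h6
      exact le_of_mul_le_mul_left h7 (by positivity)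
    have h8 : ((k : ℝ) + 1) * (A / 12) ≤ ((k : ℝ) + 1) * J := by linarith
    exact le_of_mul_le_mul_left h8 (by positivity)
  -- second estimate: ∫ |w|² ≤ A / N
  have hw : ((k : ℝ) + 1) * ∫ Y in MB (k + 1), ‖wU U Y‖ ^ 2 ≤ A := by
    have h1 := integral_wU (N := k + 1) U
    rw [hU, one_mul, hN] at h1
    have h2 : H ≤ ((k : ℝ) + 1) * A := by
      have : H ≤ ∫ Y in MB (k + 1), ((k : ℝ) + 1) := by
        apply setIntegral_mono_on
        · exact integrableOn_MB _ continuous_hs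
        · exact integrableOn_MB _ continuous_const
        · exact hMBm
        · intro Y hY
          have := hs_le hY
          rwa [hN] at this
      refine this.trans (le_of_eq ?_)
      simp [Measure.real, hA, mul_comm]
    have h3 : ((k : ℝ) + 1) * (((k : ℝ) + 1) * ∫ Y in MB (k + 1), ‖wU U Y‖ ^ 2)
        ≤ ((k : ℝ) + 1) * A := by
      calc _ = ((k : ℝ) + 1) ^ 2 * ∫ Y in MB (k + 1), ‖wU U Y‖ ^ 2 := by ring
        _ = H := h1
        _ ≤ _ := h2
    exact le_of_mul_le_mul_left h3 (by positivity)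
  -- combine
  have hcw : Continuous fun Y : Fin (k + 1) → Fin (k + 1) → ℂ => ‖wU U Y‖ ^ 2 / τ ^ 2 :=
    ((continuous_wU U).norm.pow 2).div_const _
  have hint1 : IntegrableOn (fun Y => Psi U Y) (MB (k + 1)) volume :=
    integrableOn_MB _ (continuous_Psi U)
  have hint2 : IntegrableOn (fun Y : Fin (k + 1) → Fin (k + 1) → ℂ => ‖wU U Y‖ ^ 2 / τ ^ 2)
    (MB (k + 1)) volume := integrableOn_MB _ hcw
  have hcomb : A / 24 ≤ ∫ Y in MB (k + 1), (Psi U Y - ‖wU U Y‖ ^ 2 / τ ^ 2) := by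
    rw [integral_sub hint1 hint2]
    have h1 : ∫ Y in MB (k + 1), ‖wU U Y‖ ^ 2 / τ ^ 2 ≤ A / 24 := by
      rw [integral_div]
      rw [div_le_iff₀ (by positivity)]
      set I := ∫ Y in MB (k + 1), ‖wU U Y‖ ^ 2 with hI
      have hI0 : 0 ≤ I := integral_nonneg fun Y => by positivity
      have h2 : ((k : ℝ) + 1) * I ≤ ((k : ℝ) + 1) * (A / 24 * τ ^ 2) := by
        calc ((k : ℝ) + 1) * I ≤ A := hw
          _ = A / 24 * 24 := by ring
          _ ≤ A / 24 * (((k : ℝ) + 1) * τ ^ 2) := by gcongr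
          _ = _ := by ring
      exact le_of_mul_le_mul_left h2 (by positivity)
    linarith
  calc ENNReal.ofReal (A / 24)
      ≤ ENNReal.ofReal (∫ Y in MB (k + 1), (Psi U Y - ‖wU U Y‖ ^ 2 / τ ^ 2)) :=
        ENNReal.ofReal_le_ofReal hcomb
    _ ≤ ∫⁻ Y in MB (k + 1), ENNReal.ofReal (Psi U Y - ‖wU U Y‖ ^ 2 / τ ^ 2) :=
        ofReal_integral_le _ (hint1.sub hint2)
    _ ≤ ∫⁻ v in {v | ‖wL U v‖ ≤ τ}, FU U v := by
        have hwm : MeasurableSet {v : Fin (k + 1) → Fin (k + 1) → ℂ | ‖wL U v‖ ≤ τ} :=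
          (isClosed_le (continuous_wU U).norm continuous_const).measurableSet
        rw [← lintegral_indicator hMBm, ← lintegral_indicator hwm]
        refine lintegral_mono fun Y => ?_
        by_cases hY : Y ∈ MB (k + 1)
        · rw [Set.indicator_of_mem hY]
          by_cases hwY : ‖wU U Y‖ ≤ τ
          · rw [Set.indicator_of_mem (show Y ∈ {v | ‖wL U v‖ ≤ τ} from hwY)]
            unfold FU
            rw [Set.indicator_of_mem hY]
            apply ENNReal.ofReal_le_ofReal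
            have : 0 ≤ ‖wU U Y‖ ^ 2 / τ ^ 2 := by positivity
            linarith
          · rw [Set.indicator_of_notMem (show Y ∉ {v | ‖wL U v‖ ≤ τ} from hwY)]
            have h1 := Psi_le_one hU hY
            have h2 : 1 ≤ ‖wU U Y‖ ^ 2 / τ ^ 2 := by
              rw [le_div_iff₀ (by positivity), one_mul]
              push Not at hwY
              gcongr
            rw [ENNReal.ofReal_of_nonpos (by linarith)]
        · rw [Set.indicator_of_notMem hY]
          exact zero_le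

end Pool.Agent.Lib.MP_26fc11_gt
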